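import Mathlib

/-! Definitions for MP_db9399_co: total colourings, distance-3 matchings, extension. -/

namespace MP_db9399_co

/-- The vertex colouring `c` and the edge colouring `t` (only its values on the edges of `F` matter)
form a total colouring of `F`: adjacent vertices get different colours, distinct edges sharing an
endpoint get different colours, and every edge gets a colour different from the colours of both its
endpoints. -/
structure IsTotalColoring {V C : Type*} (F : SimpleGraph V) (c : V → C) (t : Sym2 V → C) :
    Prop where
  vertex : ∀ u v, F.Adj u v → c u ≠ c v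
  edge : ∀ u v w, F.Adj u v → F.Adj u w → v ≠ w → t s(u, v) ≠ t s(u, w)
  incidence : ∀ u v, F.Adj u v → t s(u, v) ≠ c u

/-- `H` is a distance-3 matching of `G`: `H` is a disjoint union of copies of `K₂`, and any two
vertices lying in different components of `H` are at distance at least `3` in `G`. -/
def IsDistThreeMatching {V : Type*} {G : SimpleGraph V} (H : G.Subgraph) : Prop :=
  H.IsMatching ∧ ∀ u ∈ H.verts, ∀ v ∈ H.verts, u ≠ v → ¬ H.Adj u v → 3 ≤ G.edist u v

/-- Every total colouring of the subgraph `H` with colours from `C` is the restriction of a total
colouring of `G` with colours from `C`. (`H.spanningCoe` is `H` together with isolated vertices; a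
total colouring of it is the same as a total colouring of `H` with arbitrary unused values.) -/
def EveryTotalColoringExtends {V : Type*} {G : SimpleGraph V} (H : G.Subgraph) (C : Type*) :
    Prop :=
  ∀ (c₀ : V → C) (t₀ : Sym2 V → C), IsTotalColoring H.spanningCoe c₀ t₀ →
    ∃ (c : V → C) (t : Sym2 V → C), IsTotalColoring G c t ∧
      (∀ v ∈ H.verts, c v = c₀ v) ∧ ∀ e ∈ H.edgeSet, t e = t₀ e

end MP_db9399_co
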