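import Mathlib

/-! Stable matchings and Galvin's theorem for finite bipartite multigraphs.
Edges form a finite set `S` of an abstract type, with end maps `x`, `y` and
priorities `a` (at the `x`-end) and `b` (at the `y`-end); small is better. -/

namespace MP_db9399_co

open Finset

variable {E X Y C : Type*} [DecidableEq E] [DecidableEq X] [DecidableEq Y] [DecidableEq C]

/-- Existence of a stable matching. -/
theorem exists_stable (x : E → X) (y : E → Y) (a b : E → ℕ) (S : Finset E)
    (ha : ∀ e ∈ S, ∀ f ∈ S, x e = x f → a e = a f → e = f)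
    (hb : ∀ e ∈ S, ∀ f ∈ S, y e = y f → b e = b f → e = f) :
    ∃ M ⊆ S, (∀ e ∈ M, ∀ f ∈ M, x e = x f → e = f) ∧ (∀ e ∈ M, ∀ f ∈ M, y e = y f → e = f) ∧
      ∀ e ∈ S, e ∉ M → ∃ f ∈ M, (x f = x e ∧ a f < a e) ∨ (y f = y e ∧ b f < b e) := by
  induction S using Finset.strongInduction with
  | H S ih =>
    -- favourites
    let F : Finset E := S.filter (fun e => ∀ f ∈ S, x f = x e → a e ≤ a f)
    by_cases hF : ∀ e ∈ F, ∀ f ∈ F, y e = y f → e = f
    · refine ⟨F, filter_subset _ _, ?_, hF, ?_⟩
      · intro e he f hf hx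
        simp only [F, mem_filter] at he hf
        exact ha e he.1 f hf.1 hx (le_antisymm (he.2 f hf.1 hx.symm) (hf.2 e he.1 hx))
      · intro e he heF
        obtain ⟨f, hf, hmin⟩ := exists_min_image (S.filter (fun f => x f = x e)) a
          ⟨e, by simp [he]⟩
        simp only [mem_filter] at hf hmin
        have hfF : f ∈ F := by
          simp only [F, mem_filter]
          exact ⟨hf.1, fun g hg hxg => hmin g ⟨hg, hxg.trans hf.2⟩⟩
        refine ⟨f, hfF, Or.inl ⟨hf.2, ?_⟩⟩
        rcases lt_or_eq_of_le (hmin e ⟨he, rfl⟩) with h | h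
        · exact h
        · exact absurd (ha f hf.1 e he hf.2 h ▸ hfF) heF
    · push Not at hF
      obtain ⟨e1, he1, e2, he2, hy, hne⟩ := hF
      -- wlog b e1 < b e2
      have key : ∀ e1 ∈ F, ∀ e2 ∈ F, y e1 = y e2 → e1 ≠ e2 → b e1 < b e2 →
          ∃ M ⊆ S, (∀ e ∈ M, ∀ f ∈ M, x e = x f → e = f) ∧ (∀ e ∈ M, ∀ f ∈ M, y e = y f → e = f) ∧
          ∀ e ∈ S, e ∉ M → ∃ f ∈ M, (x f = x e ∧ a f < a e) ∨ (y f = y e ∧ b f < b e) := by
        intro e1 he1 e2 he2 hy hne hlt
        simp only [F, mem_filter] at he1 he2
        obtain ⟨M, hMS, h1, h2, h3⟩ := ih (S.erase e2) (erase_ssubset he2.1)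
          (fun e he f hf => ha e (mem_of_mem_erase he) f (mem_of_mem_erase hf))
          (fun e he f hf => hb e (mem_of_mem_erase he) f (mem_of_mem_erase hf))
        refine ⟨M, hMS.trans (erase_subset _ _), h1, h2, ?_⟩
        intro e he heM
        by_cases hee : e = e2
        · subst hee
          by_cases h1M : e1 ∈ M
          · exact ⟨e1, h1M, Or.inr ⟨hy, hlt⟩⟩
          · obtain ⟨f, hfM, hf⟩ := h3 e1 (mem_erase.2 ⟨hne, he1.1⟩) h1M
            rcases hf with ⟨hxf, haf⟩ | ⟨hyf, hbf⟩
            · have := he1.2 f (mem_of_mem_erase (hMS hfM)) hxf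
              omega
            · exact ⟨f, hfM, Or.inr ⟨hyf.trans hy, hbf.trans hlt⟩⟩
        · exact h3 e (mem_erase.2 ⟨hee, he⟩) heM
      rcases lt_trichotomy (b e1) (b e2) with h | h | h
      · exact key e1 he1 e2 he2 hy hne h
      · have h1 := (mem_filter.1 he1).1
        have h2 := (mem_filter.1 he2).1
        exact absurd (hb e1 h1 e2 h2 hy h) hne
      · exact key e2 he2 e1 he1 hy.symm hne.symm h

/-- Galvin's theorem (kernel form). -/
theorem galvin [Nonempty C] (x : E → X) (y : E → Y) (a b : E → ℕ) (S : Finset E)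
    (ha : ∀ e ∈ S, ∀ f ∈ S, x e = x f → a e = a f → e = f)
    (hb : ∀ e ∈ S, ∀ f ∈ S, y e = y f → b e = b f → e = f) (L : E → Finset C)
    (hL : ∀ e ∈ S, (S.filter (fun f => x f = x e ∧ a f < a e)).card +
      (S.filter (fun f => y f = y e ∧ b f < b e)).card < (L e).card) :
    ∃ col : E → C, (∀ e ∈ S, col e ∈ L e) ∧
      ∀ e ∈ S, ∀ f ∈ S, e ≠ f → (x e = x f ∨ y e = y f) → col e ≠ col f := by
  induction S using Finset.strongInduction generalizing L with
  | H S ih =>
    rcases S.eq_empty_or_nonempty with rfl | ⟨e0, he0⟩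
    · exact ⟨fun _ => Classical.arbitrary C, by simp, by simp⟩
    · obtain ⟨c, hc⟩ : (L e0).Nonempty := by
        rw [← card_pos]; exact lt_of_le_of_lt (Nat.zero_le _) (hL e0 he0)
      obtain ⟨M, hMS, h1, h2, h3⟩ := exists_stable x y a b (S.filter (fun e => c ∈ L e))
        (fun e he f hf => ha e (mem_filter.1 he).1 f (mem_filter.1 hf).1)
        (fun e he f hf => hb e (mem_filter.1 he).1 f (mem_filter.1 hf).1)
      have hMn : M.Nonempty := by
        by_cases h : e0 ∈ M
        · exact ⟨e0, h⟩
        · obtain ⟨f, hf, -⟩ := h3 e0 (mem_filter.2 ⟨he0, hc⟩) h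
          exact ⟨f, hf⟩
      have hMS' : M ⊆ S := hMS.trans (filter_subset _ _)
      have hss : S \ M ⊂ S := by
        refine ⟨sdiff_subset, fun h => ?_⟩
        obtain ⟨f, hf⟩ := hMn
        exact (mem_sdiff.1 (h (hMS' hf))).2 hf
      obtain ⟨col, hcol1, hcol2⟩ := ih (S \ M) hss
        (fun e he f hf => ha e (mem_sdiff.1 he).1 f (mem_sdiff.1 hf).1)
        (fun e he f hf => hb e (mem_sdiff.1 he).1 f (mem_sdiff.1 hf).1)
        (fun e => (L e).erase c) (by
          intro e he
          have heS := (mem_sdiff.1 he).1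
          have heM := (mem_sdiff.1 he).2
          have hx : ((S \ M).filter (fun f => x f = x e ∧ a f < a e)) ⊆
            (S.filter (fun f => x f = x e ∧ a f < a e)) := filter_subset_filter _ sdiff_subset
          have hy : ((S \ M).filter (fun f => y f = y e ∧ b f < b e)) ⊆
            (S.filter (fun f => y f = y e ∧ b f < b e)) := filter_subset_filter _ sdiff_subset
          have hLe := hL e heS
          by_cases hce : c ∈ L e
          · obtain ⟨f, hfM, hf⟩ := h3 e (mem_filter.2 ⟨heS, hce⟩) heM
            rw [card_erase_of_mem hce]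
            rcases hf with hf | hf
            · have hx' : ((S \ M).filter (fun f => x f = x e ∧ a f < a e)).card <
                (S.filter (fun f => x f = x e ∧ a f < a e)).card := by
                apply card_lt_card
                refine ⟨hx, fun h => ?_⟩
                have : f ∈ (S \ M).filter (fun f => x f = x e ∧ a f < a e) :=
                  h (mem_filter.2 ⟨hMS' hfM, hf⟩)
                exact (mem_sdiff.1 (mem_filter.1 this).1).2 hfM
              have hy' := card_le_card hy
              omega
            · have hy' : ((S \ M).filter (fun f => y f = y e ∧ b f < b e)).card <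
                (S.filter (fun f => y f = y e ∧ b f < b e)).card := by
                apply card_lt_card
                refine ⟨hy, fun h => ?_⟩
                have : f ∈ (S \ M).filter (fun f => y f = y e ∧ b f < b e) :=
                  h (mem_filter.2 ⟨hMS' hfM, hf⟩)
                exact (mem_sdiff.1 (mem_filter.1 this).1).2 hfM
              have hx' := card_le_card hx
              omega
          · rw [erase_eq_of_notMem hce]
            have hx' := card_le_card hx
            have hy' := card_le_card hy
            omega)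
      refine ⟨fun e => if e ∈ M then c else col e, ?_, ?_⟩
      · intro e he
        by_cases heM : e ∈ M
        · simp only [heM, if_true]
          exact (mem_filter.1 (hMS heM)).2
        · simp only [heM, if_false]
          exact mem_of_mem_erase (hcol1 e (mem_sdiff.2 ⟨he, heM⟩))
      · intro e he f hf hef hxy
        by_cases heM : e ∈ M <;> by_cases hfM : f ∈ M
        · exfalso
          rcases hxy with h | h
          · exact hef (h1 e heM f hfM h)
          · exact hef (h2 e heM f hfM h)
        · simp only [heM, hfM, if_true, if_false]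
          exact (ne_of_mem_erase (hcol1 f (mem_sdiff.2 ⟨hf, hfM⟩))).symm
        · simp only [heM, hfM, if_true, if_false]
          exact ne_of_mem_erase (hcol1 e (mem_sdiff.2 ⟨he, heM⟩))
        · simp only [heM, hfM, if_false]
          exact hcol2 e (mem_sdiff.2 ⟨he, heM⟩) f (mem_sdiff.2 ⟨hf, hfM⟩) hef hxy

end MP_db9399_co
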