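import Mathlib
import Pool.Agent.Work.MP_db9399_co.Galvin

/-! Koenig's edge colouring theorem for finite bipartite multigraphs. -/

namespace MP_db9399_co

open Finset

variable {E X Y : Type*} [DecidableEq E] [DecidableEq X] [DecidableEq Y]

/-- A matching saturating all vertices of maximum degree on the `x` side. -/
theorem hall_side (x : E → X) (y : E → Y) (d : ℕ) (S : Finset E)
    (hy : ∀ v, (S.filter (fun e => y e = v)).card ≤ d + 1) :
    ∃ M ⊆ S, (∀ e ∈ M, ∀ f ∈ M, x e = x f → e = f) ∧ (∀ e ∈ M, ∀ f ∈ M, y e = y f → e = f) ∧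
      ∀ v, d + 1 ≤ (S.filter (fun e => x e = v)).card → ∃ e ∈ M, x e = v := by
  let I : Type _ := {v : X // d + 1 ≤ (S.filter (fun e => x e = v)).card}
  let t : I → Finset Y := fun v => (S.filter (fun e => x e = v.1)).image y
  have hall : ∀ s : Finset I, s.card ≤ (s.biUnion t).card := by
    intro s
    have h1 : s.card * (d + 1) ≤ (s.biUnion (fun v => S.filter (fun e => x e = v.1))).card := by
      rw [card_biUnion]
      · rw [← smul_eq_mul]
        exact Finset.card_nsmul_le_sum _ _ _ (fun v _ => v.2)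
      · intro v _ w _ hvw
        rw [Function.onFun, Finset.disjoint_left]
        intro e he hf
        simp only [mem_filter] at he hf
        exact hvw (Subtype.ext (he.2.symm.trans hf.2))
    have h2 : (s.biUnion (fun v => S.filter (fun e => x e = v.1))) ⊆
        (s.biUnion t).biUnion (fun w => S.filter (fun e => y e = w)) := by
      intro e he
      simp only [mem_biUnion, mem_filter, t, mem_image] at he ⊢
      obtain ⟨v, hv, heS, hxe⟩ := he
      exact ⟨y e, ⟨v, hv, e, ⟨heS, hxe⟩, rfl⟩, heS, rfl⟩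
    have h3 : ((s.biUnion t).biUnion (fun w => S.filter (fun e => y e = w))).card ≤
        (s.biUnion t).card * (d + 1) := by
      exact card_biUnion_le_card_mul _ _ _ (fun w _ => hy w)
    have h4 := (h1.trans (card_le_card h2)).trans h3
    exact Nat.le_of_mul_le_mul_right h4 (Nat.succ_pos d)
  obtain ⟨f, hf, hft⟩ := (Finset.all_card_le_biUnion_card_iff_exists_injective t).1 hall
  have hch : ∀ v : I, ∃ e ∈ S, x e = v.1 ∧ y e = f v := by
    intro v
    have := hft v
    simp only [t, mem_image, mem_filter] at this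
    obtain ⟨e, ⟨h1, h2⟩, h3⟩ := this
    exact ⟨e, h1, h2, h3⟩
  choose g hgS hgx hgy using hch
  classical
  refine ⟨S.filter (fun e => ∃ v : I, g v = e), filter_subset _ _, ?_, ?_, ?_⟩
  · intro e he e' he' h
    simp only [mem_filter] at he he'
    obtain ⟨_, v, rfl⟩ := he
    obtain ⟨_, w, rfl⟩ := he'
    rw [hgx, hgx] at h
    rw [Subtype.ext h]
  · intro e he e' he' h
    simp only [mem_filter] at he he'
    obtain ⟨_, v, rfl⟩ := he
    obtain ⟨_, w, rfl⟩ := he'
    rw [hgy, hgy] at h
    rw [hf h]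
  · intro v hv
    exact ⟨g ⟨v, hv⟩, by simp only [mem_filter]; exact ⟨hgS _, _, rfl⟩, hgx _⟩

/-- A matching saturating all vertices of maximum degree on both sides. -/
theorem exists_matching_max (x : E → X) (y : E → Y) (d : ℕ) (S : Finset E)
    (hx : ∀ v, (S.filter (fun e => x e = v)).card ≤ d + 1)
    (hy : ∀ v, (S.filter (fun e => y e = v)).card ≤ d + 1) :
    ∃ M ⊆ S, (∀ e ∈ M, ∀ f ∈ M, x e = x f → e = f) ∧ (∀ e ∈ M, ∀ f ∈ M, y e = y f → e = f) ∧
      (∀ v, d + 1 ≤ (S.filter (fun e => x e = v)).card → ∃ e ∈ M, x e = v) ∧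
      (∀ v, d + 1 ≤ (S.filter (fun e => y e = v)).card → ∃ e ∈ M, y e = v) := by
  obtain ⟨M1, hM1S, h1x, h1y, h1c⟩ := hall_side x y d S hy
  obtain ⟨M2, hM2S, h2y, h2x, h2c⟩ := hall_side y x d S hx
  obtain ⟨M, hM, hMx, hMy, hst⟩ := exists_stable x y (fun e => if e ∈ M2 then 0 else 1)
    (fun e => if e ∈ M1 then 0 else 1) (M1 ∪ M2)
    (by
      intro e he f hf hxx haa
      simp only [mem_union] at he hf
      by_cases h1 : e ∈ M2 <;> by_cases h2 : f ∈ M2 <;> simp only [h1, h2, if_true, if_false] at haa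
      · exact h2x e h1 f h2 hxx
      · omega
      · omega
      · exact h1x e (he.resolve_right h1) f (hf.resolve_right h2) hxx)
    (by
      intro e he f hf hxx haa
      simp only [mem_union] at he hf
      by_cases h1 : e ∈ M1 <;> by_cases h2 : f ∈ M1 <;> simp only [h1, h2, if_true, if_false] at haa
      · exact h1y e h1 f h2 hxx
      · omega
      · omega
      · exact h2y e (he.resolve_left h1) f (hf.resolve_left h2) hxx)
  refine ⟨M, hM.trans (union_subset hM1S hM2S), hMx, hMy, ?_, ?_⟩
  · intro v hv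
    obtain ⟨e, he, hev⟩ := h1c v hv
    by_cases heM : e ∈ M
    · exact ⟨e, heM, hev⟩
    · obtain ⟨f, hf, hd⟩ := hst e (mem_union_left _ he) heM
      rcases hd with hd | hd
      · exact ⟨f, hf, hd.1.trans hev⟩
      · simp [he] at hd
  · intro v hv
    obtain ⟨e, he, hev⟩ := h2c v hv
    by_cases heM : e ∈ M
    · exact ⟨e, heM, hev⟩
    · obtain ⟨f, hf, hd⟩ := hst e (mem_union_right _ he) heM
      rcases hd with hd | hd
      · simp [he] at hd
      · exact ⟨f, hf, hd.1.trans hev⟩

theorem deg_sdiff (z : E → X) (d : ℕ) (S M : Finset E) (hMS : M ⊆ S)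
    (hz : ∀ v, (S.filter (fun e => z e = v)).card ≤ d + 1)
    (hc : ∀ v, d + 1 ≤ (S.filter (fun e => z e = v)).card → ∃ e ∈ M, z e = v) (v : X) :
    ((S \ M).filter (fun e => z e = v)).card ≤ d := by
  have hsub : ((S \ M).filter (fun e => z e = v)) ⊆ (S.filter (fun e => z e = v)) :=
    filter_subset_filter _ sdiff_subset
  by_cases h : d + 1 ≤ (S.filter (fun e => z e = v)).card
  · obtain ⟨e, he, hev⟩ := hc v h
    have : ((S \ M).filter (fun e => z e = v)).card < (S.filter (fun e => z e = v)).card := by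
      apply card_lt_card
      refine ⟨hsub, fun h' => ?_⟩
      have : e ∈ (S \ M).filter (fun e => z e = v) := h' (mem_filter.2 ⟨hMS he, hev⟩)
      exact (mem_sdiff.1 (mem_filter.1 this).1).2 he
    have := hz v
    omega
  · have := card_le_card hsub
    omega

/-- Koenig's edge colouring theorem. -/
theorem konig (x : E → X) (y : E → Y) (d : ℕ) (S : Finset E)
    (hx : ∀ v, (S.filter (fun e => x e = v)).card ≤ d)
    (hy : ∀ v, (S.filter (fun e => y e = v)).card ≤ d) :
    ∃ κ : E → ℕ, (∀ e ∈ S, κ e < d) ∧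
      ∀ e ∈ S, ∀ f ∈ S, e ≠ f → (x e = x f ∨ y e = y f) → κ e ≠ κ f := by
  induction d generalizing S with
  | zero =>
    have hS : S = ∅ := by
      by_contra h
      obtain ⟨e, he⟩ := nonempty_iff_ne_empty.2 h
      have := hx (x e)
      have h2 : e ∈ S.filter (fun f => x f = x e) := by simp [he]
      have := card_pos.2 ⟨e, h2⟩
      omega
    subst hS
    exact ⟨fun _ => 0, by simp, by simp⟩
  | succ d ih =>
    obtain ⟨M, hMS, hMx, hMy, hcx, hcy⟩ := exists_matching_max x y d S hx hy
    obtain ⟨κ, hκ1, hκ2⟩ := ih (S \ M) (deg_sdiff x d S M hMS hx hcx)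
      (deg_sdiff y d S M hMS hy hcy)
    refine ⟨fun e => if e ∈ M then d else κ e, ?_, ?_⟩
    · intro e he
      by_cases heM : e ∈ M
      · simp [heM]
      · simp only [heM, if_false]
        have := hκ1 e (mem_sdiff.2 ⟨he, heM⟩)
        omega
    · intro e he f hf hef hxy
      by_cases heM : e ∈ M <;> by_cases hfM : f ∈ M <;>
        simp only [heM, hfM, if_true, if_false]
      · exfalso
        rcases hxy with h | h
        · exact hef (hMx e heM f hfM h)
        · exact hef (hMy e heM f hfM h)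
      · have := hκ1 f (mem_sdiff.2 ⟨hf, hfM⟩)
        omega
      · have := hκ1 e (mem_sdiff.2 ⟨he, heM⟩)
        omega
      · exact hκ2 e (mem_sdiff.2 ⟨he, heM⟩) f (mem_sdiff.2 ⟨hf, hfM⟩) hef hxy

end MP_db9399_co
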