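import Mathlib

/-!
Preference keys for the edges of a finite bipartite graph (the preference half of the
Borodin-Kostochka-Woodall theorem).
-/

namespace Pool.Agent.Work.MP_db9399_co

open Finset

/-- Hall's theorem on a finite set of points -/
lemma hallOn {P Q : Type*} [DecidableEq P] [DecidableEq Q] [Nonempty Q] (P0 : Finset P)
    (t : P → Finset Q) (h : ∀ S ⊆ P0, S.card ≤ (S.biUnion t).card) :
    ∃ f : P → Q, Set.InjOn f P0 ∧ ∀ x ∈ P0, f x ∈ t x := by
  classical
  have h1 : ∀ s : Finset {x // x ∈ P0}, s.card ≤ (s.biUnion (fun x => t x.1)).card := by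
    intro s
    have h2 := h (s.map (Function.Embedding.subtype _)) (by
      intro x hx
      rw [mem_map] at hx
      obtain ⟨y, _, rfl⟩ := hx
      exact y.2)
    rw [card_map] at h2
    refine h2.trans (le_of_eq ?_)
    congr 1
    ext y
    simp only [mem_biUnion, mem_map, Function.Embedding.coe_subtype, Subtype.exists, exists_and_right,
      exists_eq_right]
  obtain ⟨f, hf1, hf2⟩ := (all_card_le_biUnion_card_iff_exists_injective _).mp h1
  refine ⟨fun x => if hx : x ∈ P0 then f ⟨x, hx⟩ else Classical.arbitrary Q, ?_, ?_⟩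
  · intro x hx y hy hxy
    have hx' : x ∈ P0 := hx
    have hy' : y ∈ P0 := hy
    simp only [hx', hy', dif_pos] at hxy
    exact congrArg Subtype.val (hf1 hxy)
  · intro x hx
    simp only [hx, dif_pos]
    exact hf2 ⟨x, hx⟩

/-- points of large degree can be matched -/
lemma hallDeg {P Q : Type*} [DecidableEq P] [DecidableEq Q] [Nonempty Q] (P0 : Finset P)
    (t : P → Finset Q) (t' : Q → Finset P) (D : ℕ) (hD : 0 < D) (h1 : ∀ x ∈ P0, D ≤ (t x).card)
    (h2 : ∀ y, (t' y).card ≤ D) (h3 : ∀ x y, y ∈ t x → x ∈ t' y) :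
    ∃ f : P → Q, Set.InjOn f P0 ∧ ∀ x ∈ P0, f x ∈ t x := by
  classical
  apply hallOn
  intro S hS
  have h4 := card_mul_le_card_mul (s := S) (t := S.biUnion t) (fun x y => y ∈ t x) (m := D) (n := D)
    (by
      intro x hx
      refine (h1 x (hS hx)).trans (card_le_card ?_)
      intro y hy
      rw [mem_bipartiteAbove]
      exact ⟨mem_biUnion.mpr ⟨x, hx, hy⟩, hy⟩)
    (by
      intro y _
      refine (card_le_card ?_).trans (h2 y)
      intro x hx
      rw [mem_bipartiteBelow] at hx
      exact h3 x y hx.2)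
  exact Nat.le_of_mul_le_mul_right h4 hD

/-- Mendelsohn-Dulmage -/
lemma mendelsohn {P Q : Type*} (P0 : Set P) (Q0 : Set Q) (r : P → Q → Prop) (f : P → Q) (g : Q → P)
    (hf : Set.InjOn f P0) (hfr : ∀ x ∈ P0, r x (f x)) (hg : Set.InjOn g Q0)
    (hgP : ∀ y ∈ Q0, g y ∈ P0) (hgr : ∀ y ∈ Q0, r (g y) y) :
    ∃ h : P → Q, Set.InjOn h P0 ∧ (∀ x ∈ P0, r x (h x)) ∧ ∀ y ∈ Q0, ∃ x ∈ P0, h x = y := by
  classical
  set C : Set P := {x | ∃ x0 ∈ P0, (∀ y ∈ Q0, g y ≠ x0) ∧
    Relation.ReflTransGen (fun a b => f a ∈ Q0 ∧ b = g (f a)) x0 x} with hC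
  have hC1 : ∀ x ∈ P0, (∀ y ∈ Q0, g y ≠ x) → x ∈ C :=
    fun x hx hy => ⟨x, hx, hy, Relation.ReflTransGen.refl⟩
  have hC2 : ∀ x ∈ C, f x ∈ Q0 → g (f x) ∈ C := by
    rintro x ⟨x0, h1, h2, h3⟩ hx
    exact ⟨x0, h1, h2, h3.tail ⟨hx, rfl⟩⟩
  have hC3 : ∀ x ∈ C, x ∈ P0 := by
    rintro x ⟨x0, h1, h2, h3⟩
    rcases Relation.ReflTransGen.cases_tail h3 with h | ⟨z, _, hz1, hz2⟩
    · rw [h]
      exact h1
    · rw [hz2]
      exact hgP _ hz1
  have hC4 : ∀ x ∈ C, ∀ y ∈ Q0, g y = x → ∃ z ∈ C, f z = y := by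
    rintro x ⟨x0, h1, h2, h3⟩ y hy hyx
    rcases Relation.ReflTransGen.cases_tail h3 with h | ⟨z, hz0, hz1, hz2⟩
    · exact absurd (h ▸ hyx) (h2 y hy)
    · refine ⟨z, ⟨x0, h1, h2, hz0⟩, ?_⟩
      exact hg hz1 hy (hz2.symm.trans hyx.symm)
  have hC5 : ∀ x ∈ P0, x ∉ C → ∃ y ∈ Q0, g y = x := by
    intro x hx hxC
    by_contra hno
    push Not at hno
    exact hxC (hC1 x hx hno)
  have hch : ∀ x, ∃ y, x ∈ P0 → (x ∈ C → y = f x) ∧ (x ∉ C → y ∈ Q0 ∧ g y = x) := by
    intro x
    by_cases hx : x ∈ P0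
    · by_cases hxC : x ∈ C
      · exact ⟨f x, fun _ => ⟨fun _ => rfl, fun h => absurd hxC h⟩⟩
      · obtain ⟨y, hy1, hy2⟩ := hC5 x hx hxC
        exact ⟨y, fun _ => ⟨fun h => absurd h hxC, fun _ => ⟨hy1, hy2⟩⟩⟩
    · exact ⟨f x, fun h => absurd h hx⟩
  choose h hh using hch
  refine ⟨h, ?_, ?_, ?_⟩
  · intro x hx x' hx' hxx
    by_cases c1 : x ∈ C <;> by_cases c2 : x' ∈ C
    · rw [(hh x hx).1 c1, (hh x' hx').1 c2] at hxx
      exact hf hx hx' hxx
    · exfalso
      have e1 := (hh x hx).1 c1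
      have e2 := (hh x' hx').2 c2
      rw [← hxx, e1] at e2
      exact c2 (e2.2 ▸ hC2 x c1 e2.1)
    · exfalso
      have e1 := (hh x' hx').1 c2
      have e2 := (hh x hx).2 c1
      rw [hxx, e1] at e2
      exact c1 (e2.2 ▸ hC2 x' c2 e2.1)
    · have e1 := (hh x hx).2 c1
      have e2 := (hh x' hx').2 c2
      rw [← e1.2, ← e2.2, hxx]
  · intro x hx
    by_cases c1 : x ∈ C
    · rw [(hh x hx).1 c1]
      exact hfr x hx
    · have e1 := (hh x hx).2 c1
      have := hgr _ e1.1
      rwa [e1.2] at this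
  · intro y hy
    by_cases c1 : g y ∈ C
    · obtain ⟨z, hz1, hz2⟩ := hC4 _ c1 y hy rfl
      exact ⟨z, hC3 z hz1, by rw [(hh z (hC3 z hz1)).1 hz1, hz2]⟩
    · refine ⟨g y, hgP y hy, ?_⟩
      have e1 := (hh _ (hgP y hy)).2 c1
      exact hg e1.1 hy e1.2

section

variable {U W : Type*} [DecidableEq U] [DecidableEq W]

/-- number of better edges at the left end -/
def betterL (p : U × W → ℕ) (E : Finset (U × W)) (e : U × W) : ℕ :=
  (E.filter (fun e' => e'.1 = e.1 ∧ p e' < p e)).card

/-- number of better edges at the right end -/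
def betterR (q : U × W → ℕ) (E : Finset (U × W)) (e : U × W) : ℕ :=
  (E.filter (fun e' => e'.2 = e.2 ∧ q e' < q e)).card

/-- the matching which meets all vertices of maximum degree -/
lemma exists_matching (E : Finset (U × W)) (hE : E.Nonempty) (D : ℕ) (hD : 0 < D)
    (hL : ∀ u, (E.filter (fun e => e.1 = u)).card ≤ D)
    (hR : ∀ w, (E.filter (fun e => e.2 = w)).card ≤ D) :
    ∃ (D0 : Finset W) (B : Finset U) (h : W → U) (h' : U → W),
      (∀ w ∈ D0, (h w, w) ∈ E) ∧ (∀ u ∈ B, (u, h' u) ∈ E) ∧ Set.InjOn h D0 ∧ Set.InjOn h' B ∧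
      (∀ u ∈ B, ∀ w ∈ D0, (u, w) ∉ E) ∧ (∀ u ∈ B, (E.filter (fun e => e.1 = u)).card = D) ∧
      (∀ w ∈ D0, (E.filter (fun e => e.2 = w)).card = D) ∧
      (∀ u, (E.filter (fun e => e.1 = u)).card = D → u ∈ B ∨ ∃ w ∈ D0, h w = u) ∧
      (∀ w, (E.filter (fun e => e.2 = w)).card = D → w ∈ D0 ∨ ∃ u ∈ B, h' u = w) := by
  classical
  obtain ⟨e0, he0⟩ := hE
  have : Nonempty U := ⟨e0.1⟩
  have : Nonempty W := ⟨e0.2⟩
  set UD : Finset U := (E.image Prod.fst).filter (fun u => (E.filter (fun e => e.1 = u)).card = D)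
    with hUD
  set WD : Finset W := (E.image Prod.snd).filter (fun w => (E.filter (fun e => e.2 = w)).card = D)
    with hWD
  have hUDm : ∀ u, (E.filter (fun e => e.1 = u)).card = D → u ∈ UD := by
    intro u hu
    rw [hUD, mem_filter]
    refine ⟨?_, hu⟩
    have h1 : (E.filter (fun e => e.1 = u)).Nonempty := by
      rw [← card_pos, hu]
      exact hD
    obtain ⟨e, he⟩ := h1
    rw [mem_filter] at he
    exact mem_image.mpr ⟨e, he.1, he.2⟩
  have hWDm : ∀ w, (E.filter (fun e => e.2 = w)).card = D → w ∈ WD := by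
    intro w hw
    rw [hWD, mem_filter]
    refine ⟨?_, hw⟩
    have h1 : (E.filter (fun e => e.2 = w)).Nonempty := by
      rw [← card_pos, hw]
      exact hD
    obtain ⟨e, he⟩ := h1
    rw [mem_filter] at he
    exact mem_image.mpr ⟨e, he.1, he.2⟩
  have hUDd : ∀ u ∈ UD, (E.filter (fun e => e.1 = u)).card = D := fun u hu => (mem_filter.mp hu).2
  have hWDd : ∀ w ∈ WD, (E.filter (fun e => e.2 = w)).card = D := fun w hw => (mem_filter.mp hw).2
  -- neighbourhoods
  set nU : W → Finset U := fun w => (E.filter (fun e => e.2 = w)).image Prod.fst with hnU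
  set nW : U → Finset W := fun u => (E.filter (fun e => e.1 = u)).image Prod.snd with hnW
  have mU : ∀ u w, u ∈ nU w ↔ (u, w) ∈ E := by
    intro u w
    rw [hnU]
    simp only [mem_image, mem_filter, Prod.exists, exists_and_right, exists_eq_right]
  have mW : ∀ u w, w ∈ nW u ↔ (u, w) ∈ E := by
    intro u w
    rw [hnW]
    simp only [mem_image, mem_filter, Prod.exists, exists_eq_right]
  have cU : ∀ w, (nU w).card = (E.filter (fun e => e.2 = w)).card := by
    intro w
    rw [hnU]
    apply card_image_of_injOn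
    intro a ha b hb hab
    rw [mem_coe, mem_filter] at ha hb
    exact Prod.ext hab (ha.2.trans hb.2.symm)
  have cW : ∀ u, (nW u).card = (E.filter (fun e => e.1 = u)).card := by
    intro u
    rw [hnW]
    apply card_image_of_injOn
    intro a ha b hb hab
    rw [mem_coe, mem_filter] at ha hb
    exact Prod.ext (ha.2.trans hb.2.symm) hab
  -- the extremal set
  set NN : Finset W → Finset U := fun S => UD.filter (fun u => ∃ w ∈ S, (u, w) ∈ E) with hNN
  obtain ⟨D0, hD0m, hD0max⟩ := exists_max_image WD.powerset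
    (fun S => (S.card : ℤ) - (NN S).card) ⟨∅, by simp⟩
  rw [mem_powerset] at hD0m
  set A := NN D0 with hA
  have hAm : ∀ u, u ∈ A ↔ u ∈ UD ∧ ∃ w ∈ D0, (u, w) ∈ E := by
    intro u
    rw [hA, hNN]
    simp only [mem_filter]
  have hmax : ∀ S ⊆ WD, (S.card : ℤ) - (NN S).card ≤ (D0.card : ℤ) - A.card :=
    fun S hS => hD0max S (mem_powerset.mpr hS)
  set B := UD \ A with hB
  have hBm : ∀ u, u ∈ B ↔ u ∈ UD ∧ u ∉ A := by
    intro u
    rw [hB, mem_sdiff]
  -- (i)
  obtain ⟨f1, f1i, f1m⟩ := hallOn (WD \ D0) (fun w => (nU w).filter (fun u => u ∈ B)) (by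
    intro S hS
    have h1 := hmax (D0 ∪ S) (union_subset hD0m (hS.trans sdiff_subset))
    have h2 : Disjoint D0 S := by
      rw [disjoint_left]
      intro w hw hw'
      exact (mem_sdiff.mp (hS hw')).2 hw
    have h3 : NN (D0 ∪ S) ⊆ A ∪ S.biUnion (fun w => (nU w).filter (fun u => u ∈ B)) := by
      intro u hu
      rw [hNN] at hu
      simp only [mem_filter, mem_union] at hu
      rw [mem_union, mem_biUnion]
      by_cases huA : u ∈ A
      · exact Or.inl huA
      · right
        obtain ⟨hu1, w, hw | hw, hw2⟩ := hu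
        · exact absurd ((hAm u).mpr ⟨hu1, w, hw, hw2⟩) huA
        · refine ⟨w, hw, ?_⟩
          rw [mem_filter, mU, hBm]
          exact ⟨hw2, hu1, huA⟩
    have h4 := (card_le_card h3).trans (card_union_le _ _)
    rw [card_union_of_disjoint h2] at h1
    push_cast at h1
    omega)
  -- (ii)
  have : Nonempty W := ⟨e0.2⟩
  obtain ⟨f2, f2i, f2m⟩ := hallOn A (fun u => (nW u).filter (fun w => w ∈ D0)) (by
    intro T hT
    set NT := T.biUnion (fun u => (nW u).filter (fun w => w ∈ D0)) with hNT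
    have h0 : NT ⊆ D0 := by
      intro w hw
      rw [hNT, mem_biUnion] at hw
      obtain ⟨u, _, hw⟩ := hw
      exact (mem_filter.mp hw).2
    have h1 := hmax (D0 \ NT) (sdiff_subset.trans hD0m)
    have h3 : NN (D0 \ NT) ⊆ A \ T := by
      intro u hu
      rw [hNN] at hu
      simp only [mem_filter, mem_sdiff] at hu
      obtain ⟨hu1, w, ⟨hw1, hw2⟩, hw3⟩ := hu
      rw [mem_sdiff, hAm]
      refine ⟨⟨hu1, w, hw1, hw3⟩, fun huT => hw2 ?_⟩
      rw [hNT, mem_biUnion]
      refine ⟨u, huT, ?_⟩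
      rw [mem_filter, mW]
      exact ⟨hw3, hw1⟩
    have h4 := card_le_card h3
    rw [card_sdiff_of_subset hT] at h4
    rw [card_sdiff_of_subset h0] at h1
    have h5 := card_le_card h0
    have h6 := card_le_card hT
    omega)
  -- (iii)
  obtain ⟨f3, f3i, f3m⟩ := hallDeg D0 nU nW D hD (fun w hw => by
      rw [cU, hWDd w (hD0m hw)]) (fun u => by rw [cW]; exact hL u)
      (fun w u h => by rw [mW]; exact (mU _ _).mp h)
  -- (iv)
  obtain ⟨f4, f4i, f4m⟩ := hallDeg B nW nU D hD (fun u hu => by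
      rw [cW, hUDd u ((hBm u).mp hu).1]) (fun w => by rw [cU]; exact hR w)
      (fun u w h => by rw [mU]; exact (mW _ _).mp h)
  obtain ⟨h, hi, hr, hc⟩ := mendelsohn (D0 : Set W) (A : Set U) (fun w u => (u, w) ∈ E) f3 f2 f3i
    (fun w hw => (mU _ _).mp (f3m w hw)) f2i
    (fun u hu => (mem_filter.mp (f2m u hu)).2)
    (fun u hu => (mW _ _).mp (mem_filter.mp (f2m u hu)).1)
  obtain ⟨h', hi', hr', hc'⟩ := mendelsohn (B : Set U) ((WD \ D0 : Finset W) : Set W)
    (fun u w => (u, w) ∈ E) f4 f1 f4i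
    (fun u hu => (mW _ _).mp (f4m u hu)) f1i
    (fun w hw => (mem_filter.mp (f1m w hw)).2)
    (fun w hw => (mU _ _).mp (mem_filter.mp (f1m w hw)).1)
  refine ⟨D0, B, h, h', hr, hr', hi, hi', ?_, ?_, ?_, ?_, ?_⟩
  · intro u hu w hw huw
    rw [hBm] at hu
    exact hu.2 ((hAm u).mpr ⟨hu.1, w, hw, huw⟩)
  · intro u hu
    exact hUDd u ((hBm u).mp hu).1
  · intro w hw
    exact hWDd w (hD0m hw)
  · intro u hu
    have h1 := hUDm u hu
    by_cases huA : u ∈ A
    · right
      obtain ⟨w, hw, hw2⟩ := hc u huA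
      exact ⟨w, hw, hw2⟩
    · exact Or.inl ((hBm u).mpr ⟨h1, huA⟩)
  · intro w hw
    have h1 := hWDm w hw
    by_cases hw0 : w ∈ D0
    · exact Or.inl hw0
    · right
      obtain ⟨u, hu, hu2⟩ := hc' w (mem_coe.mpr (mem_sdiff.mpr ⟨h1, hw0⟩))
      exact ⟨u, hu, hu2⟩

theorem exists_keys (E : Finset (U × W)) : ∃ p q : U × W → ℕ,
    (∀ e ∈ E, ∀ e' ∈ E, e.1 = e'.1 → p e = p e' → e = e') ∧
    (∀ e ∈ E, ∀ e' ∈ E, e.2 = e'.2 → q e = q e' → e = e') ∧
    ∀ e ∈ E, betterL p E e + betterR q E e <
      max (E.filter (fun e' => e'.1 = e.1)).card (E.filter (fun e' => e'.2 = e.2)).card := by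
  classical
  induction hn : E.card using Nat.strong_induction_on generalizing E with
  | _ n ih =>
  rcases E.eq_empty_or_nonempty with h0 | hne
  · subst h0
    exact ⟨fun _ => 0, fun _ => 0, by simp, by simp, by simp⟩
  -- maximum degree
  set dL : U → ℕ := fun u => (E.filter (fun e => e.1 = u)).card with hdL
  set dR : W → ℕ := fun w => (E.filter (fun e => e.2 = w)).card with hdR
  set D := max (E.sup (fun e => dL e.1)) (E.sup (fun e => dR e.2)) with hDdef
  have hdLD : ∀ u, dL u ≤ D := by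
    intro u
    by_cases hu : ∃ e ∈ E, e.1 = u
    · obtain ⟨e, he, rfl⟩ := hu
      exact (le_sup (f := fun e : U × W => dL e.1) he).trans (le_max_left _ _)
    · have : dL u = 0 := by
        rw [hdL]
        simp only [card_eq_zero]
        apply filter_false_of_mem
        intro e he heu
        exact hu ⟨e, he, heu⟩
      omega
  have hdRD : ∀ w, dR w ≤ D := by
    intro w
    by_cases hw : ∃ e ∈ E, e.2 = w
    · obtain ⟨e, he, rfl⟩ := hw
      exact (le_sup (f := fun e : U × W => dR e.2) he).trans (le_max_right _ _)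
    · have : dR w = 0 := by
        rw [hdR]
        simp only [card_eq_zero]
        apply filter_false_of_mem
        intro e he hew
        exact hw ⟨e, he, hew⟩
      omega
  have hdLpos : ∀ e ∈ E, 0 < dL e.1 := by
    intro e he
    rw [hdL]
    exact card_pos.mpr ⟨e, mem_filter.mpr ⟨he, rfl⟩⟩
  have hdRpos : ∀ e ∈ E, 0 < dR e.2 := by
    intro e he
    rw [hdR]
    exact card_pos.mpr ⟨e, mem_filter.mpr ⟨he, rfl⟩⟩
  have hDpos : 0 < D := by
    obtain ⟨e, he⟩ := hne
    exact (hdLpos e he).trans_le (hdLD _)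
  obtain ⟨D0, B, h, h', m1, m2, m3, m4, m5, m6, m7, m8, m9⟩ :=
    exists_matching E hne D hDpos hdLD hdRD
  set MR : Finset (U × W) := D0.image (fun w => (h w, w)) with hMR
  set ML : Finset (U × W) := B.image (fun u => (u, h' u)) with hML
  have mMR : ∀ e, e ∈ MR ↔ e.2 ∈ D0 ∧ e.1 = h e.2 := by
    intro e
    rw [hMR, mem_image]
    constructor
    · rintro ⟨w, hw, rfl⟩
      exact ⟨hw, rfl⟩
    · rintro ⟨h1, h2⟩
      exact ⟨e.2, h1, Prod.ext h2.symm rfl⟩
  have mML : ∀ e, e ∈ ML ↔ e.1 ∈ B ∧ e.2 = h' e.1 := by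
    intro e
    rw [hML, mem_image]
    constructor
    · rintro ⟨w, hw, rfl⟩
      exact ⟨hw, rfl⟩
    · rintro ⟨h1, h2⟩
      exact ⟨e.1, h1, Prod.ext rfl h2.symm⟩
  have hMRE : MR ⊆ E := by
    intro e he
    rw [mMR] at he
    have := m1 e.2 he.1
    rwa [← he.2] at this
  have hMLE : ML ⊆ E := by
    intro e he
    rw [mML] at he
    have := m2 e.1 he.1
    rwa [← he.2] at this
  -- the matching property
  have hdisj1 : ∀ e ∈ MR, e.1 ∉ B := by
    intro e he heB
    have h1 := (mMR e).mp he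
    exact m5 e.1 heB e.2 h1.1 (hMRE he)
  have hdisj2 : ∀ e ∈ ML, e.2 ∉ D0 := by
    intro e he heD
    have h1 := (mML e).mp he
    exact m5 e.1 h1.1 e.2 heD (hMLE he)
  have hmatL : ∀ e ∈ MR ∪ ML, ∀ e' ∈ MR ∪ ML, e.1 = e'.1 → e = e' := by
    intro e he e' he' hee
    rw [mem_union] at he he'
    rcases he with he | he <;> rcases he' with he' | he'
    · have h1 := (mMR e).mp he
      have h2 := (mMR e').mp he'
      refine Prod.ext hee (m3 h1.1 h2.1 ?_)
      rw [← h1.2, ← h2.2, hee]
    · exact absurd (hee ▸ ((mML e').mp he').1) (hdisj1 e he)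
    · exact absurd (hee ▸ ((mML e).mp he).1) (hdisj1 e' he')
    · have h1 := (mML e).mp he
      have h2 := (mML e').mp he'
      refine Prod.ext hee ?_
      rw [h1.2, h2.2, hee]
  have hmatR : ∀ e ∈ MR ∪ ML, ∀ e' ∈ MR ∪ ML, e.2 = e'.2 → e = e' := by
    intro e he e' he' hee
    rw [mem_union] at he he'
    rcases he with he | he <;> rcases he' with he' | he'
    · have h1 := (mMR e).mp he
      have h2 := (mMR e').mp he'
      refine Prod.ext ?_ hee
      rw [h1.2, h2.2, hee]
    · exact absurd (hee ▸ ((mMR e).mp he).1) (hdisj2 e' he')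
    · exact absurd (hee ▸ ((mMR e').mp he').1) (hdisj2 e he)
    · have h1 := (mML e).mp he
      have h2 := (mML e').mp he'
      refine Prod.ext (m4 h1.1 h2.1 ?_) hee
      rw [← h1.2, ← h2.2, hee]
  have hcovL : ∀ u, dL u = D → ∃ e ∈ MR ∪ ML, e.1 = u := by
    intro u hu
    rcases m8 u hu with h1 | ⟨w, hw, hw2⟩
    · exact ⟨(u, h' u), mem_union_right _ ((mML _).mpr ⟨h1, rfl⟩), rfl⟩
    · exact ⟨(h w, w), mem_union_left _ ((mMR _).mpr ⟨hw, rfl⟩), hw2⟩
  have hcovR : ∀ w, dR w = D → ∃ e ∈ MR ∪ ML, e.2 = w := by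
    intro w hw
    rcases m9 w hw with h1 | ⟨u, hu, hu2⟩
    · exact ⟨(h w, w), mem_union_left _ ((mMR _).mpr ⟨h1, rfl⟩), rfl⟩
    · exact ⟨(u, h' u), mem_union_right _ ((mML _).mpr ⟨hu, rfl⟩), hu2⟩
  set M := MR ∪ ML with hM
  have hME : M ⊆ E := union_subset hMRE hMLE
  have hMne : M.Nonempty := by
    have h1 : ∃ e ∈ E, dL e.1 = D ∨ dR e.2 = D := by
      rcases max_cases (E.sup (fun e => dL e.1)) (E.sup (fun e => dR e.2)) with hc | hc
      · obtain ⟨e, he, hee⟩ := exists_mem_eq_sup E hne (fun e => dL e.1)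
        exact ⟨e, he, Or.inl (by rw [hDdef, hc.1, hee])⟩
      · obtain ⟨e, he, hee⟩ := exists_mem_eq_sup E hne (fun e => dR e.2)
        exact ⟨e, he, Or.inr (by rw [hDdef, hc.1, hee])⟩
    obtain ⟨e, _, he | he⟩ := h1
    · obtain ⟨e', he', _⟩ := hcovL _ he
      exact ⟨e', he'⟩
    · obtain ⟨e', he', _⟩ := hcovR _ he
      exact ⟨e', he'⟩
  set E' := E \ M with hE'
  have hlt : E'.card < n := by
    rw [← hn]
    apply card_lt_card
    rw [hE', ssubset_iff_of_subset sdiff_subset]
    obtain ⟨e, he⟩ := hMne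
    exact ⟨e, hME he, fun hh => (mem_sdiff.mp hh).2 he⟩
  obtain ⟨p', q', hp', hq', hpq⟩ := ih _ hlt E' rfl
  set N := max (E.sup p') (E.sup q') + 2 with hN
  have hNp : ∀ e ∈ E, p' e + 1 < N := by
    intro e he
    have := (le_sup (f := p') he).trans (le_max_left (E.sup p') (E.sup q'))
    omega
  have hNq : ∀ e ∈ E, q' e + 1 < N := by
    intro e he
    have := (le_sup (f := q') he).trans (le_max_right (E.sup p') (E.sup q'))
    omega
  set p : U × W → ℕ := fun e => if e ∈ MR then N else if e ∈ ML then 0 else p' e + 1 with hpdef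
  set q : U × W → ℕ := fun e => if e ∈ ML then N else if e ∈ MR then 0 else q' e + 1 with hqdef
  have hMRML : ∀ e ∈ MR, e ∉ ML := by
    intro e he he'
    exact hdisj1 e he ((mML e).mp he').1
  have pMR : ∀ e ∈ MR, p e = N := by
    intro e he
    rw [hpdef]
    simp only [he, if_true]
  have pML : ∀ e ∈ ML, p e = 0 := by
    intro e he
    have h1 : e ∉ MR := fun h2 => hMRML e h2 he
    rw [hpdef]
    simp only [h1, if_false, he, if_true]
  have qMR : ∀ e ∈ MR, q e = 0 := by
    intro e he
    have h1 := hMRML e he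
    rw [hqdef]
    simp only [h1, if_false, he, if_true]
  have qML : ∀ e ∈ ML, q e = N := by
    intro e he
    rw [hqdef]
    simp only [he, if_true]
  have pE' : ∀ e, e ∉ M → p e = p' e + 1 := by
    intro e he
    rw [hM, mem_union, not_or] at he
    rw [hpdef]
    simp only [he.1, he.2, if_false]
  have qE' : ∀ e, e ∉ M → q e = q' e + 1 := by
    intro e he
    rw [hM, mem_union, not_or] at he
    rw [hqdef]
    simp only [he.1, he.2, if_false]
  have hMpq : ∀ e ∈ M, (p e = N ∨ p e = 0) ∧ (q e = N ∨ q e = 0) := by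
    intro e he
    rw [hM, mem_union] at he
    rcases he with he | he
    · exact ⟨Or.inl (pMR e he), Or.inr (qMR e he)⟩
    · exact ⟨Or.inr (pML e he), Or.inl (qML e he)⟩
  refine ⟨p, q, ?_, ?_, ?_⟩
  · intro e he e' he' h1 h2
    by_cases c1 : e ∈ M <;> by_cases c2 : e' ∈ M
    · exact hmatL e c1 e' c2 h1
    · exfalso
      have e1 := (hMpq e c1).1
      have e2 := pE' e' c2
      have e3 := hNp e' he'
      omega
    · exfalso
      have e1 := (hMpq e' c2).1
      have e2 := pE' e c1
      have e3 := hNp e he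
      omega
    · rw [pE' e c1, pE' e' c2] at h2
      exact hp' e (mem_sdiff.mpr ⟨he, c1⟩) e' (mem_sdiff.mpr ⟨he', c2⟩) h1 (by omega)
  · intro e he e' he' h1 h2
    by_cases c1 : e ∈ M <;> by_cases c2 : e' ∈ M
    · exact hmatR e c1 e' c2 h1
    · exfalso
      have e1 := (hMpq e c1).2
      have e2 := qE' e' c2
      have e3 := hNq e' he'
      omega
    · exfalso
      have e1 := (hMpq e' c2).2
      have e2 := qE' e c1
      have e3 := hNq e he
      omega
    · rw [qE' e c1, qE' e' c2] at h2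
      exact hq' e (mem_sdiff.mpr ⟨he, c1⟩) e' (mem_sdiff.mpr ⟨he', c2⟩) h1 (by omega)
  · intro e he
    change betterL p E e + betterR q E e < max (dL e.1) (dR e.2)
    by_cases c1 : e ∈ MR
    · -- last on the left, first on the right
      have h1 : betterR q E e = 0 := by
        unfold betterR
        rw [card_eq_zero]
        apply filter_false_of_mem
        intro e' _
        rw [qMR e c1]
        omega
      have h2 : betterL p E e < dL e.1 := by
        unfold betterL
        rw [hdL]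
        apply card_lt_card
        rw [ssubset_iff_of_subset]
        · refine ⟨e, mem_filter.mpr ⟨he, rfl⟩, ?_⟩
          rw [mem_filter]
          rintro ⟨_, _, h3⟩
          exact lt_irrefl _ h3
        · intro e' he'
          rw [mem_filter] at he' ⊢
          exact ⟨he'.1, he'.2.1⟩
      have := le_max_left (dL e.1) (dR e.2)
      omega
    by_cases c2 : e ∈ ML
    · have h1 : betterL p E e = 0 := by
        unfold betterL
        rw [card_eq_zero]
        apply filter_false_of_mem
        intro e' _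
        rw [pML e c2]
        omega
      have h2 : betterR q E e < dR e.2 := by
        unfold betterR
        rw [hdR]
        apply card_lt_card
        rw [ssubset_iff_of_subset]
        · refine ⟨e, mem_filter.mpr ⟨he, rfl⟩, ?_⟩
          rw [mem_filter]
          rintro ⟨_, _, h3⟩
          exact lt_irrefl _ h3
        · intro e' he'
          rw [mem_filter] at he' ⊢
          exact ⟨he'.1, he'.2.1⟩
      have := le_max_right (dL e.1) (dR e.2)
      omega
    -- an edge outside the matching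
    have c3 : e ∉ M := by
      rw [hM, mem_union, not_or]
      exact ⟨c1, c2⟩
    have heE' : e ∈ E' := mem_sdiff.mpr ⟨he, c3⟩
    have h1 := hpq e heE'
    have hbL : betterL p E e ≤ betterL p' E' e + if e.1 ∈ B then 1 else 0 := by
      unfold betterL
      have hsub : E.filter (fun e' => e'.1 = e.1 ∧ p e' < p e) ⊆
          E'.filter (fun e' => e'.1 = e.1 ∧ p' e' < p' e) ∪ ML.filter (fun e' => e'.1 = e.1) := by
        intro e' he'
        rw [mem_filter, pE' e c3] at he'
        rw [mem_union, mem_filter, mem_filter]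
        by_cases d1 : e' ∈ ML
        · exact Or.inr ⟨d1, he'.2.1⟩
        · left
          have d2 : e' ∉ MR := by
            intro d3
            have e4 := pMR e' d3
            have e5 := hNp e he
            omega
          have d4 : e' ∉ M := by
            rw [hM, mem_union, not_or]
            exact ⟨d2, d1⟩
          have e6 := pE' e' d4
          exact ⟨mem_sdiff.mpr ⟨he'.1, d4⟩, he'.2.1, by omega⟩
      refine (card_le_card hsub).trans ((card_union_le _ _).trans ?_)
      apply Nat.add_le_add_left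
      split_ifs with hB
      · rw [card_le_one]
        intro a ha b hb
        rw [mem_filter] at ha hb
        exact hmatL a (mem_union_right _ ha.1) b (mem_union_right _ hb.1) (ha.2.trans hb.2.symm)
      · rw [Nat.le_zero, card_eq_zero]
        apply filter_false_of_mem
        intro e' he' h2
        exact hB (h2 ▸ ((mML e').mp he').1)
    have hbR : betterR q E e ≤ betterR q' E' e + if e.2 ∈ D0 then 1 else 0 := by
      unfold betterR
      have hsub : E.filter (fun e' => e'.2 = e.2 ∧ q e' < q e) ⊆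
          E'.filter (fun e' => e'.2 = e.2 ∧ q' e' < q' e) ∪ MR.filter (fun e' => e'.2 = e.2) := by
        intro e' he'
        rw [mem_filter, qE' e c3] at he'
        rw [mem_union, mem_filter, mem_filter]
        by_cases d1 : e' ∈ MR
        · exact Or.inr ⟨d1, he'.2.1⟩
        · left
          have d2 : e' ∉ ML := by
            intro d3
            have e4 := qML e' d3
            have e5 := hNq e he
            omega
          have d4 : e' ∉ M := by
            rw [hM, mem_union, not_or]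
            exact ⟨d1, d2⟩
          have e6 := qE' e' d4
          exact ⟨mem_sdiff.mpr ⟨he'.1, d4⟩, he'.2.1, by omega⟩
      refine (card_le_card hsub).trans ((card_union_le _ _).trans ?_)
      apply Nat.add_le_add_left
      split_ifs with hD
      · rw [card_le_one]
        intro a ha b hb
        rw [mem_filter] at ha hb
        exact hmatR a (mem_union_left _ ha.1) b (mem_union_left _ hb.1) (ha.2.trans hb.2.symm)
      · rw [Nat.le_zero, card_eq_zero]
        apply filter_false_of_mem
        intro e' he' h2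
        exact hD (h2 ▸ ((mMR e').mp he').1)
    -- degrees after the removal of the matching
    have hL1 : (E'.filter (fun e' => e'.1 = e.1)).card ≤ dL e.1 :=
      card_le_card (filter_subset_filter _ sdiff_subset)
    have hR1 : (E'.filter (fun e' => e'.2 = e.2)).card ≤ dR e.2 :=
      card_le_card (filter_subset_filter _ sdiff_subset)
    have hL2 : (E'.filter (fun e' => e'.1 = e.1)).card ≤ D - 1 := by
      rcases (hdLD e.1).lt_or_eq with h2 | h2
      · omega
      · obtain ⟨e', he', h3⟩ := hcovL _ h2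
        have : (E'.filter (fun e' => e'.1 = e.1)).card < dL e.1 := by
          apply card_lt_card
          rw [ssubset_iff_of_subset (filter_subset_filter _ sdiff_subset)]
          refine ⟨e', mem_filter.mpr ⟨hME he', h3⟩, ?_⟩
          rw [mem_filter]
          rintro ⟨h4, _⟩
          exact (mem_sdiff.mp h4).2 he'
        omega
    have hR2 : (E'.filter (fun e' => e'.2 = e.2)).card ≤ D - 1 := by
      rcases (hdRD e.2).lt_or_eq with h2 | h2
      · omega
      · obtain ⟨e', he', h3⟩ := hcovR _ h2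
        have : (E'.filter (fun e' => e'.2 = e.2)).card < dR e.2 := by
          apply card_lt_card
          rw [ssubset_iff_of_subset (filter_subset_filter _ sdiff_subset)]
          refine ⟨e', mem_filter.mpr ⟨hME he', h3⟩, ?_⟩
          rw [mem_filter]
          rintro ⟨h4, _⟩
          exact (mem_sdiff.mp h4).2 he'
        omega
    by_cases hB : e.1 ∈ B
    · have hD : e.2 ∉ D0 := fun h2 => m5 e.1 hB e.2 h2 he
      rw [if_pos hB] at hbL
      rw [if_neg hD] at hbR
      have h2 : dL e.1 = D := m6 e.1 hB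
      have h3 := le_max_left (dL e.1) (dR e.2)
      have h4 : max (E'.filter (fun e' => e'.1 = e.1)).card (E'.filter (fun e' => e'.2 = e.2)).card
          ≤ D - 1 := max_le hL2 hR2
      omega
    · rw [if_neg hB] at hbL
      by_cases hD : e.2 ∈ D0
      · rw [if_pos hD] at hbR
        have h2 : dR e.2 = D := m7 e.2 hD
        have h3 := le_max_right (dL e.1) (dR e.2)
        have h4 : max (E'.filter (fun e' => e'.1 = e.1)).card
            (E'.filter (fun e' => e'.2 = e.2)).card ≤ D - 1 := max_le hL2 hR2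
        omega
      · rw [if_neg hD] at hbR
        have h4 : max (E'.filter (fun e' => e'.1 = e.1)).card
            (E'.filter (fun e' => e'.2 = e.2)).card ≤ max (dL e.1) (dR e.2) :=
          max_le_max hL1 hR1
        omega

end

end Pool.Agent.Work.MP_db9399_co
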