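import Mathlib
import Pool.Agent.Work.MP_db9399_co.Galvin
import Pool.Agent.Work.MP_db9399_co.BKW70

/-!
# The Borodin-Kostochka-Woodall theorem for bipartite graphs

List edge colouring of a finite bipartite graph when every edge has a list at least as large as the
larger of the degrees of its two ends.
-/

set_option autoImplicit false

namespace Pool.Agent.Work.MP_db9399_co

open Finset

variable {U W α : Type*} [DecidableEq U] [DecidableEq W] [DecidableEq α]

/-- Borodin-Kostochka-Woodall. -/
theorem bkw [Nonempty α] (E : Finset (U × W)) (L : U × W → Finset α)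
    (hL : ∀ e ∈ E, max (E.filter (fun e' => e'.1 = e.1)).card
      (E.filter (fun e' => e'.2 = e.2)).card ≤ (L e).card) :
    ∃ f : U × W → α, (∀ e ∈ E, f e ∈ L e) ∧
      (∀ e ∈ E, ∀ e' ∈ E, e ≠ e' → (e.1 = e'.1 ∨ e.2 = e'.2) → f e ≠ f e') := by
  obtain ⟨p, q, hp, hq, h⟩ := exists_keys E
  refine _root_.MP_db9399_co.galvin (Prod.fst) (Prod.snd) p q E hp hq L ?_
  intro e he
  have h1 := h e he
  have h2 := hL e he
  unfold betterL betterR at h1
  exact lt_of_lt_of_le h1 h2

end Pool.Agent.Work.MP_db9399_co
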