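import Mathlib
import Pool.Agent.Work.MP_db9399_co.Konig

/-! A Hall/Ore decomposition and the list colouring lemma with two kinds of picked edges. -/

namespace MP_db9399_co

open Finset

variable {V : Type*} [DecidableEq V]

/-- Ore decomposition: `D0` on the left, `B0` on the right, no edges between them, a matching of
the rest of the left side into `B0` and a matching of the rest of the right side into `D0`. -/
theorem dm (r : V → V → Prop) (XR YR : Finset V) :
    ∃ D0 ⊆ XR, ∃ B0 ⊆ YR, (∀ x ∈ D0, ∀ y ∈ B0, ¬ r x y) ∧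
      (∃ k1 : V → V, (∀ x ∈ XR \ D0, k1 x ∈ B0 ∧ r x (k1 x)) ∧
        ∀ x ∈ XR \ D0, ∀ x' ∈ XR \ D0, k1 x = k1 x' → x = x') ∧
      (∃ k2 : V → V, (∀ y ∈ YR \ B0, k2 y ∈ D0 ∧ r (k2 y) y) ∧
        ∀ y ∈ YR \ B0, ∀ y' ∈ YR \ B0, k2 y = k2 y' → y = y') := by
  classical
  let N : Finset V → Finset V := fun T => YR.filter (fun y => ∃ x ∈ T, r x y)
  obtain ⟨D0, hD0, hmin⟩ := exists_min_image XR.powerset
    (fun T => (N T).card + (XR \ T).card) ⟨∅, by simp⟩
  rw [mem_powerset] at hD0
  refine ⟨D0, hD0, YR \ N D0, sdiff_subset, ?_, ?_, ?_⟩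
  · intro x hx y hy hr
    rw [mem_sdiff] at hy
    exact hy.2 (mem_filter.2 ⟨hy.1, x, hx, hr⟩)
  · let ι : Type _ := {x : V // x ∈ XR \ D0}
    let t : ι → Finset V := fun x => (YR \ N D0).filter (fun y => r x.1 y)
    have hall : ∀ s : Finset ι, s.card ≤ (s.biUnion t).card := by
      intro s
      let s' : Finset V := s.map (Function.Embedding.subtype _)
      have hs' : ∀ v ∈ s', v ∈ XR \ D0 := by
        intro v hv
        simp only [s', mem_map, Function.Embedding.coe_subtype] at hv
        obtain ⟨w, _, rfl⟩ := hv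
        exact w.2
      have hcs : s'.card = s.card := card_map _
      have hTX : D0 ∪ s' ⊆ XR :=
        union_subset hD0 (fun v hv => (mem_sdiff.1 (hs' v hv)).1)
      have h1 := hmin (D0 ∪ s') (mem_powerset.2 hTX)
      have h2 : N (D0 ∪ s') ⊆ N D0 ∪ s.biUnion t := by
        intro y hy
        simp only [N, mem_filter, mem_union] at hy
        obtain ⟨hyY, x, hx, hr⟩ := hy
        by_cases hyN : y ∈ N D0
        · exact mem_union_left _ hyN
        · apply mem_union_right
          rcases hx with hx | hx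
          · exact absurd (mem_filter.2 ⟨hyY, x, hx, hr⟩) hyN
          · simp only [s', mem_map, Function.Embedding.coe_subtype] at hx
            obtain ⟨w, hw, rfl⟩ := hx
            simp only [mem_biUnion, t, mem_filter, mem_sdiff]
            exact ⟨w, hw, ⟨hyY, hyN⟩, hr⟩
      have h3 := (card_le_card h2).trans (card_union_le _ _)
      have h4 : (XR \ (D0 ∪ s')).card + s.card ≤ (XR \ D0).card := by
        rw [← hcs, ← card_union_of_disjoint]
        · apply card_le_card
          intro v hv
          simp only [mem_union, mem_sdiff] at hv ⊢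
          rcases hv with hv | hv
          · exact ⟨hv.1, fun h => hv.2 (Or.inl h)⟩
          · exact mem_sdiff.1 (hs' v hv)
        · rw [Finset.disjoint_left]
          intro v hv hv'
          simp only [mem_union, mem_sdiff] at hv
          exact hv.2 (Or.inr hv')
      omega
    obtain ⟨f, hf, hft⟩ := (Finset.all_card_le_biUnion_card_iff_exists_injective t).1 hall
    refine ⟨fun x => if h : x ∈ XR \ D0 then f ⟨x, h⟩ else x, ?_, ?_⟩
    · intro x hx
      simp only [hx, dif_pos]
      have := hft ⟨x, hx⟩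
      simp only [t, mem_filter] at this
      exact this
    · intro x hx x' hx' h
      simp only [hx, hx', dif_pos] at h
      exact congrArg Subtype.val (hf h)
  · let ι : Type _ := {y : V // y ∈ YR \ (YR \ N D0)}
    let t : ι → Finset V := fun y => D0.filter (fun x => r x y.1)
    have hall : ∀ s : Finset ι, s.card ≤ (s.biUnion t).card := by
      intro s
      let s' : Finset V := s.map (Function.Embedding.subtype _)
      have hs' : ∀ v ∈ s', v ∈ N D0 := by
        intro v hv
        simp only [s', mem_map, Function.Embedding.coe_subtype] at hv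
        obtain ⟨w, _, rfl⟩ := hv
        have := w.2
        simp only [mem_sdiff, not_and, not_not] at this
        exact this.2 this.1
      have hcs : s'.card = s.card := card_map _
      have hTX : D0 \ s.biUnion t ⊆ XR := sdiff_subset.trans hD0
      have h1 := hmin (D0 \ s.biUnion t) (mem_powerset.2 hTX)
      have h2 : N (D0 \ s.biUnion t) ⊆ N D0 \ s' := by
        intro y hy
        simp only [N, mem_filter, mem_sdiff] at hy ⊢
        obtain ⟨hyY, x, ⟨hx, hx2⟩, hr⟩ := hy
        refine ⟨⟨hyY, x, hx, hr⟩, fun hys => hx2 ?_⟩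
        simp only [s', mem_map, Function.Embedding.coe_subtype] at hys
        obtain ⟨w, hw, rfl⟩ := hys
        simp only [mem_biUnion, t, mem_filter]
        exact ⟨w, hw, hx, hr⟩
      have h3 := card_le_card h2
      have h3' : (N D0 \ s').card + s.card = (N D0).card := by
        rw [← hcs]
        exact card_sdiff_add_card_eq_card (fun v hv => hs' v hv)
      have h4 : (XR \ (D0 \ s.biUnion t)).card ≤ (XR \ D0).card + (s.biUnion t).card := by
        refine (card_le_card ?_).trans (card_union_le _ _)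
        intro v hv
        simp only [mem_union, mem_sdiff, not_and, not_not] at hv ⊢
        by_cases h : v ∈ D0
        · exact Or.inr (hv.2 h)
        · exact Or.inl ⟨hv.1, h⟩
      omega
    obtain ⟨f, hf, hft⟩ := (Finset.all_card_le_biUnion_card_iff_exists_injective t).1 hall
    refine ⟨fun x => if h : x ∈ YR \ (YR \ N D0) then f ⟨x, h⟩ else x, ?_, ?_⟩
    · intro x hx
      simp only [hx, dif_pos]
      have := hft ⟨x, hx⟩
      simp only [t, mem_filter] at this
      exact this
    · intro x hx x' hx' h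
      simp only [hx, hx', dif_pos] at h
      exact congrArg Subtype.val (hf h)

/-- The list colouring lemma. The edges at `D0` and at `B0` have lists of size `d + 1`, all others
of size `d`; every vertex of degree `d + 1` meets a picked edge. -/
theorem list_lemma [Fintype V] {C : Type*} [DecidableEq C] [Nonempty C] (S : Finset (V × V))
    (d : ℕ)
    (hdx : ∀ v, (S.filter (fun e => e.1 = v)).card ≤ d + 1)
    (hdy : ∀ v, (S.filter (fun e => e.2 = v)).card ≤ d + 1)
    (D0 B0 : Finset V) (hDB : ∀ e ∈ S, e.1 ∈ D0 → e.2 ∉ B0) (f g : V → V)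
    (hcx : ∀ v, d + 1 ≤ (S.filter (fun e => e.1 = v)).card →
      ∃ e ∈ S, e.1 = v ∧ ((e.1 ∈ D0 ∧ e.2 = f e.1) ∨ (e.2 ∈ B0 ∧ e.1 = g e.2)))
    (hcy : ∀ v, d + 1 ≤ (S.filter (fun e => e.2 = v)).card →
      ∃ e ∈ S, e.2 = v ∧ ((e.1 ∈ D0 ∧ e.2 = f e.1) ∨ (e.2 ∈ B0 ∧ e.1 = g e.2)))
    (L : V × V → Finset C) (hL : ∀ e ∈ S, d ≤ (L e).card)
    (hL' : ∀ e ∈ S, e.1 ∈ D0 ∨ e.2 ∈ B0 → d + 1 ≤ (L e).card) :
    ∃ col : V × V → C, (∀ e ∈ S, col e ∈ L e) ∧
      ∀ e ∈ S, ∀ e' ∈ S, e ≠ e' → (e.1 = e'.1 ∨ e.2 = e'.2) → col e ≠ col e' := by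
  classical
  let FX : Finset (V × V) := S.filter (fun e => e.1 ∈ D0 ∧ e.2 = f e.1)
  let FY : Finset (V × V) := S.filter (fun e => e.2 ∈ B0 ∧ e.1 = g e.2)
  have hFX : ∀ e, e ∈ FX ↔ e ∈ S ∧ e.1 ∈ D0 ∧ e.2 = f e.1 := fun e => mem_filter
  have hFY : ∀ e, e ∈ FY ↔ e ∈ S ∧ e.2 ∈ B0 ∧ e.1 = g e.2 := fun e => mem_filter
  have hdisj : ∀ e ∈ FX, e ∉ FY := by
    intro e he he'
    exact hDB e ((hFX e).1 he).1 ((hFX e).1 he).2.1 ((hFY e).1 he').2.1
  have hsub : FX ∪ FY ⊆ S := union_subset (filter_subset _ _) (filter_subset _ _)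
  have hcov : ∀ e ∈ S, ((e.1 ∈ D0 ∧ e.2 = f e.1) ∨ (e.2 ∈ B0 ∧ e.1 = g e.2)) → e ∈ FX ∪ FY := by
    intro e he h
    rcases h with h | h
    · exact mem_union_left _ ((hFX e).2 ⟨he, h⟩)
    · exact mem_union_right _ ((hFY e).2 ⟨he, h⟩)
  obtain ⟨κ, hκ1, hκ2⟩ := konig (E := V × V) Prod.fst Prod.snd d (S \ (FX ∪ FY))
    (deg_sdiff Prod.fst d S (FX ∪ FY) hsub hdx (fun v hv => by
      obtain ⟨e, he, hev, h⟩ := hcx v hv
      exact ⟨e, hcov e he h, hev⟩))
    (deg_sdiff Prod.snd d S (FX ∪ FY) hsub hdy (fun v hv => by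
      obtain ⟨e, he, hev, h⟩ := hcy v hv
      exact ⟨e, hcov e he h, hev⟩))
  have hT : ∀ e ∈ S, e ∉ FX → e ∉ FY → e ∈ S \ (FX ∪ FY) := by
    intro e he h1 h2
    simp only [mem_sdiff, mem_union, not_or]
    exact ⟨he, h1, h2⟩
  let ι : V → ℕ := fun v => (Fintype.equivFin V v : ℕ)
  have hι : ∀ u v, ι u = ι v → u = v := by
    intro u v h
    exact (Fintype.equivFin V).injective (Fin.ext h)
  let a : V × V → ℕ := fun e => if e ∈ FX then 0 else if e ∈ FY then d + 1 + ι e.2 else κ e + 1
  let b : V × V → ℕ := fun e => if e ∈ FX then d + 1 + ι e.1 else if e ∈ FY then 0 else d - κ e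
  have a1 : ∀ e, e ∈ FX → a e = 0 := fun e he => if_pos he
  have a2 : ∀ e, e ∈ FY → a e = d + 1 + ι e.2 := by
    intro e he
    have : e ∉ FX := fun h => hdisj e h he
    simp only [a, this, he, if_true, if_false]
  have a3 : ∀ e, e ∉ FX → e ∉ FY → a e = κ e + 1 := by
    intro e h1 h2
    simp only [a, h1, h2, if_false]
  have b1 : ∀ e, e ∈ FX → b e = d + 1 + ι e.1 := fun e he => if_pos he
  have b2 : ∀ e, e ∈ FY → b e = 0 := by
    intro e he
    have : e ∉ FX := fun h => hdisj e h he
    simp only [b, this, he, if_true, if_false]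
  have b3 : ∀ e, e ∉ FX → e ∉ FY → b e = d - κ e := by
    intro e h1 h2
    simp only [b, h1, h2, if_false]
  have hκ : ∀ e ∈ S, e ∉ FX → e ∉ FY → κ e < d := fun e he h1 h2 => hκ1 e (hT e he h1 h2)
  have hainj : ∀ e ∈ S, ∀ e' ∈ S, e.1 = e'.1 → a e = a e' → e = e' := by
    intro e he e' he' hx ha
    by_cases h1 : e ∈ FX <;> by_cases h1' : e' ∈ FX
    · have h := ((hFX e).1 h1).2.2
      have h' := ((hFX e').1 h1').2.2
      exact Prod.ext hx (by rw [h, h', hx])
    · rw [a1 e h1] at ha
      by_cases h2' : e' ∈ FY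
      · rw [a2 e' h2'] at ha; omega
      · rw [a3 e' h1' h2'] at ha; omega
    · rw [a1 e' h1'] at ha
      by_cases h2 : e ∈ FY
      · rw [a2 e h2] at ha; omega
      · rw [a3 e h1 h2] at ha; omega
    · by_cases h2 : e ∈ FY <;> by_cases h2' : e' ∈ FY
      · rw [a2 e h2, a2 e' h2'] at ha
        exact Prod.ext hx (hι _ _ (by omega))
      · rw [a2 e h2, a3 e' h1' h2'] at ha
        have := hκ e' he' h1' h2'
        omega
      · rw [a3 e h1 h2, a2 e' h2'] at ha
        have := hκ e he h1 h2
        omega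
      · rw [a3 e h1 h2, a3 e' h1' h2'] at ha
        by_contra hne
        exact hκ2 e (hT e he h1 h2) e' (hT e' he' h1' h2') hne (Or.inl hx) (by omega)
  have hbinj : ∀ e ∈ S, ∀ e' ∈ S, e.2 = e'.2 → b e = b e' → e = e' := by
    intro e he e' he' hy hb
    by_cases h1 : e ∈ FX <;> by_cases h1' : e' ∈ FX
    · rw [b1 e h1, b1 e' h1'] at hb
      exact Prod.ext (hι _ _ (by omega)) hy
    · rw [b1 e h1] at hb
      by_cases h2' : e' ∈ FY
      · rw [b2 e' h2'] at hb; omega
      · rw [b3 e' h1' h2'] at hb
        omega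
    · rw [b1 e' h1'] at hb
      by_cases h2 : e ∈ FY
      · rw [b2 e h2] at hb; omega
      · rw [b3 e h1 h2] at hb
        omega
    · by_cases h2 : e ∈ FY <;> by_cases h2' : e' ∈ FY
      · have h := ((hFY e).1 h2).2.2
        have h' := ((hFY e').1 h2').2.2
        exact Prod.ext (by rw [h, h', hy]) hy
      · rw [b2 e h2, b3 e' h1' h2'] at hb
        have := hκ e' he' h1' h2'
        omega
      · rw [b3 e h1 h2, b2 e' h2'] at hb
        have := hκ e he h1 h2
        omega
      · rw [b3 e h1 h2, b3 e' h1' h2'] at hb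
        by_contra hne
        have h3 := hκ e he h1 h2
        have h4 := hκ e' he' h1' h2'
        exact hκ2 e (hT e he h1 h2) e' (hT e' he' h1' h2') hne (Or.inr hy) (by omega)
  refine galvin (E := V × V) Prod.fst Prod.snd a b S hainj hbinj L ?_
  intro e he
  by_cases h1 : e ∈ FX
  · have hx0 : (S.filter (fun f => f.1 = e.1 ∧ a f < a e)).card = 0 := by
      rw [card_eq_zero, filter_eq_empty_iff]
      intro f _ hf
      rw [a1 e h1] at hf
      omega
    have hy0 : (S.filter (fun f => f.2 = e.2 ∧ b f < b e)).card <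
        (S.filter (fun f => f.2 = e.2)).card := by
      apply card_lt_card
      refine ⟨fun f hf => ?_, fun h => ?_⟩
      · simp only [mem_filter] at hf ⊢
        exact ⟨hf.1, hf.2.1⟩
      · have : e ∈ S.filter (fun f => f.2 = e.2 ∧ b f < b e) := h (mem_filter.2 ⟨he, rfl⟩)
        simp at this
    have h2 := hdy e.2
    have h3 := hL' e he (Or.inl ((hFX e).1 h1).2.1)
    omega
  by_cases h2 : e ∈ FY
  · have hx0 : (S.filter (fun f => f.2 = e.2 ∧ b f < b e)).card = 0 := by
      rw [card_eq_zero, filter_eq_empty_iff]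
      intro f _ hf
      rw [b2 e h2] at hf
      omega
    have hy0 : (S.filter (fun f => f.1 = e.1 ∧ a f < a e)).card <
        (S.filter (fun f => f.1 = e.1)).card := by
      apply card_lt_card
      refine ⟨fun f hf => ?_, fun h => ?_⟩
      · simp only [mem_filter] at hf ⊢
        exact ⟨hf.1, hf.2.1⟩
      · have : e ∈ S.filter (fun f => f.1 = e.1 ∧ a f < a e) := h (mem_filter.2 ⟨he, rfl⟩)
        simp at this
    have h4 := hdx e.1
    have h3 := hL' e he (Or.inr ((hFY e).1 h2).2.1)
    omega
  · have hκe := hκ e he h1 h2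
    have hx0 : (S.filter (fun f => f.1 = e.1 ∧ a f < a e)).card ≤
        κ e + (if e.1 ∈ D0 then 1 else 0) := by
      have hcard : ((if e.1 ∈ D0 then range (κ e + 1) else Icc 1 (κ e) : Finset ℕ)).card =
          κ e + (if e.1 ∈ D0 then 1 else 0) := by
        split_ifs <;> simp
      rw [← hcard]
      apply card_le_card_of_injOn a
      · intro f hf
        simp only [coe_filter, Set.mem_ofPred_eq] at hf
        obtain ⟨hfS, hf1, hf2⟩ := hf
        rw [a3 e h1 h2] at hf2
        split_ifs with hD
        · simp only [coe_range, Set.mem_Iio]; omega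
        · have hfX : f ∉ FX := by
            intro h
            have := ((hFX f).1 h).2.1
            rw [hf1] at this
            exact hD this
          have hfpos : 1 ≤ a f := by
            by_cases hfY : f ∈ FY
            · rw [a2 f hfY]; omega
            · rw [a3 f hfX hfY]; omega
          simp only [coe_Icc, Set.mem_Icc]
          omega
      · intro f hf f' hf' haa
        simp only [coe_filter, Set.mem_ofPred_eq] at hf hf'
        exact hainj f hf.1 f' hf'.1 (hf.2.1.trans hf'.2.1.symm) haa
    have hy0 : (S.filter (fun f => f.2 = e.2 ∧ b f < b e)).card ≤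
        (d - 1 - κ e) + (if e.2 ∈ B0 then 1 else 0) := by
      have hcard : ((if e.2 ∈ B0 then range (d - κ e) else Icc 1 (d - 1 - κ e) : Finset ℕ)).card =
          (d - 1 - κ e) + (if e.2 ∈ B0 then 1 else 0) := by
        split_ifs <;> (simp; try omega)
      rw [← hcard]
      apply card_le_card_of_injOn b
      · intro f hf
        simp only [coe_filter, Set.mem_ofPred_eq] at hf
        obtain ⟨hfS, hf1, hf2⟩ := hf
        rw [b3 e h1 h2] at hf2
        split_ifs with hD
        · simp only [coe_range, Set.mem_Iio]; omega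
        · have hfY : f ∉ FY := by
            intro h
            have := ((hFY f).1 h).2.1
            rw [hf1] at this
            exact hD this
          have hfpos : 1 ≤ b f := by
            by_cases hfX : f ∈ FX
            · rw [b1 f hfX]; omega
            · rw [b3 f hfX hfY]
              have := hκ f hfS hfX hfY
              omega
          simp only [coe_Icc, Set.mem_Icc]
          omega
      · intro f hf f' hf' hbb
        simp only [coe_filter, Set.mem_ofPred_eq] at hf hf'
        exact hbinj f hf.1 f' hf'.1 (hf.2.1.trans hf'.2.1.symm) hbb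
    by_cases hD : e.1 ∈ D0
    · have hB : e.2 ∉ B0 := hDB e he hD
      have h3 := hL' e he (Or.inl hD)
      simp only [hD, hB, if_true, if_false] at hx0 hy0
      omega
    · by_cases hB : e.2 ∈ B0
      · have h3 := hL' e he (Or.inr hB)
        simp only [hD, hB, if_true, if_false] at hx0 hy0
        omega
      · have h3 := hL e he
        simp only [hD, hB, if_false] at hx0 hy0
        omega

end MP_db9399_co
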