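import Mathlib
import Pool.Agent.Work.MP_db9399_co.Defs
import Pool.Agent.Work.MP_db9399_co.DM

/-! Total colourings of distance-3 matchings extend in bipartite graphs. -/

namespace MP_db9399_co

open Finset

variable {V : Type*} [Fintype V] [DecidableEq V]

/-- Greedy extension of a proper partial vertex colouring. -/
theorem extend_vertex (G : SimpleGraph V) [DecidableRel G.Adj] (k : ℕ)
    (hdeg : ∀ v, G.degree v < k) (P : Finset V) (c1 : V → Fin k)
    (hc1 : ∀ u ∈ P, ∀ v ∈ P, G.Adj u v → c1 u ≠ c1 v) :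
    ∃ c : V → Fin k, (∀ u v, G.Adj u v → c u ≠ c v) ∧ ∀ v ∈ P, c v = c1 v := by
  induction h : (univ \ P).card generalizing P c1 with
  | zero =>
    have hP : ∀ v, v ∈ P := by
      intro v
      by_contra hv
      have : v ∈ univ \ P := by simp [hv]
      rw [card_eq_zero] at h
      rw [h] at this
      simp at this
    exact ⟨c1, fun u v huv => hc1 u (hP u) v (hP v) huv, fun _ _ => rfl⟩
  | succ n ih =>
    obtain ⟨v, hv⟩ : (univ \ P).Nonempty := by rw [← card_pos]; omega
    have hvP : v ∉ P := by simpa using hv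
    obtain ⟨γ, hγ⟩ : ∃ γ : Fin k, γ ∉ (G.neighborFinset v).image c1 := by
      by_contra hcon
      push Not at hcon
      have h1 : (univ : Finset (Fin k)) ⊆ (G.neighborFinset v).image c1 := fun γ _ => hcon γ
      have h2 := (card_le_card h1).trans card_image_le
      rw [card_univ, Fintype.card_fin, G.card_neighborFinset_eq_degree] at h2
      have := hdeg v
      omega
    have hγ' : ∀ u, G.Adj v u → c1 u ≠ γ := by
      intro u hu hcu
      apply hγ
      rw [mem_image]
      exact ⟨u, by simpa using hu, hcu⟩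
    obtain ⟨c, hc, hcP⟩ := ih (insert v P) (Function.update c1 v γ) (by
        intro u hu w hw huw
        rw [mem_insert] at hu hw
        by_cases huv : u = v
        · subst huv
          have hwu : w ≠ u := huw.ne'
          rw [Function.update_self, Function.update_of_ne hwu]
          exact (hγ' w huw).symm
        · by_cases hwv : w = v
          · subst hwv
            rw [Function.update_self, Function.update_of_ne huv]
            exact hγ' u huw.symm
          · rw [Function.update_of_ne huv, Function.update_of_ne hwv]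
            exact hc1 u (hu.resolve_left huv) w (hw.resolve_left hwv) huw)
      (by
        have : univ \ insert v P = (univ \ P).erase v := by
          ext w
          simp only [mem_sdiff, mem_univ, true_and, mem_insert, mem_erase, not_or]
        rw [this, card_erase_of_mem hv]
        omega)
    refine ⟨c, hc, fun w hw => ?_⟩
    rw [hcP w (mem_insert_of_mem hw), Function.update_of_ne]
    rintro rfl
    exact hvP hw

omit [Fintype V] [DecidableEq V] in
theorem edist_le_two (G : SimpleGraph V) {u v w : V} (h1 : G.Adj u v) (h2 : G.Adj v w) :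
    ¬ (3 ≤ G.edist u w) := by
  intro h
  have h3 : G.edist u w ≤ ((SimpleGraph.Walk.cons h1 (SimpleGraph.Walk.cons h2
    SimpleGraph.Walk.nil)).length : ℕ∞) := SimpleGraph.edist_le _
  simp only [SimpleGraph.Walk.length_cons, SimpleGraph.Walk.length_nil] at h3
  have h4 := h.trans h3
  norm_num at h4

omit [Fintype V] [DecidableEq V] in
theorem edist_le_one (G : SimpleGraph V) {u v : V} (h1 : G.Adj u v) :
    ¬ (3 ≤ G.edist u v) := by
  intro h
  have h3 : G.edist u v ≤ ((SimpleGraph.Walk.cons h1 SimpleGraph.Walk.nil).length : ℕ∞) :=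
    SimpleGraph.edist_le _
  simp only [SimpleGraph.Walk.length_cons, SimpleGraph.Walk.length_nil] at h3
  have h4 := h.trans h3
  norm_num at h4

/-- The main theorem for a bipartite graph with degrees at most `d + 1` and `d + 3` colours. -/
theorem bip_main (G : SimpleGraph V) [DecidableRel G.Adj] (d : ℕ)
    (hdeg : ∀ v, G.degree v ≤ d + 1) (side : V → Bool)
    (hside : ∀ u v, G.Adj u v → side u ≠ side v) (H : G.Subgraph) (hH : IsDistThreeMatching H)
    (c0 : V → Fin (d + 3)) (t0 : Sym2 V → Fin (d + 3))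
    (h0 : IsTotalColoring H.spanningCoe c0 t0) :
    ∃ (c : V → Fin (d + 3)) (t : Sym2 V → Fin (d + 3)), IsTotalColoring G c t ∧
      (∀ v ∈ H.verts, c v = c0 v) ∧ ∀ e ∈ H.edgeSet, t e = t0 e := by
  classical
  obtain ⟨hM, hdist⟩ := hH
  -- the partner of an `H`-vertex and the colour of its edge
  have hpart : ∀ w : V, ∃ p : V, w ∈ H.verts → H.Adj w p := by
    intro w
    by_cases hw : w ∈ H.verts
    · obtain ⟨p, hp, _⟩ := hM hw
      exact ⟨p, fun _ => hp⟩
    · exact ⟨w, fun h => absurd h hw⟩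
  choose p hp using hpart
  have hpu : ∀ w z, H.Adj w z → z = p w := by
    intro w z hwz
    have hw : w ∈ H.verts := hwz.fst_mem
    exact (hM hw).unique hwz (hp w hw)
  let r : V → Fin (d + 3) := fun w => t0 s(w, p w)
  have hr : ∀ w z, H.Adj w z → t0 s(w, z) = r w := by
    intro w z hwz
    rw [hpu w z hwz]
  -- adjacency facts
  have hF2 : ∀ u ∈ H.verts, ∀ v ∈ H.verts, G.Adj u v → H.Adj u v := by
    intro u hu v hv huv
    by_contra hn
    exact edist_le_one G huv (hdist u hu v hv huv.ne hn)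
  have hF1 : ∀ v, ∀ u1 ∈ H.verts, ∀ u2 ∈ H.verts, G.Adj v u1 → G.Adj v u2 → u1 = u2 := by
    intro v u1 hu1 u2 hu2 h1 h2
    by_contra hne
    by_cases hadj : H.Adj u1 u2
    · have h3 := hside v u1 h1
      have h4 := hside v u2 h2
      have h5 := hside u1 u2 hadj.adj_sub
      revert h3 h4 h5
      cases side v <;> cases side u1 <;> cases side u2 <;> simp
    · exact edist_le_two G h1.symm h2 (hdist u1 hu1 u2 hu2 hne hadj)
  -- the edge set
  let S : Finset (V × V) := univ.filter (fun e => side e.1 = true ∧ G.Adj e.1 e.2 ∧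
    ¬ H.Adj e.1 e.2)
  have hS : ∀ e, e ∈ S ↔ side e.1 = true ∧ G.Adj e.1 e.2 ∧ ¬ H.Adj e.1 e.2 := by
    intro e
    simp only [S, mem_filter, mem_univ, true_and]
  have hside2 : ∀ e ∈ S, side e.2 = false := by
    intro e he
    have h1 := (hS e).1 he
    have h2 := hside _ _ h1.2.1
    rw [h1.1] at h2
    cases h : side e.2
    · rfl
    · exact absurd h.symm h2
  have hdx : ∀ v, (S.filter (fun e => e.1 = v)).card ≤ (G.neighborFinset v).card := by
    intro v
    apply card_le_card_of_injOn Prod.snd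
    · intro e he
      simp only [coe_filter, Set.mem_ofPred_eq] at he
      have := (hS e).1 he.1
      simp only [SimpleGraph.coe_neighborFinset, SimpleGraph.mem_neighborSet]
      rw [← he.2]
      exact this.2.1
    · intro e he e' he' h
      simp only [coe_filter, Set.mem_ofPred_eq] at he he'
      exact Prod.ext (he.2.trans he'.2.symm) h
  have hdx' : ∀ v ∈ H.verts, (S.filter (fun e => e.1 = v)).card ≤
      ((G.neighborFinset v).erase (p v)).card := by
    intro v hv
    apply card_le_card_of_injOn Prod.snd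
    · intro e he
      simp only [coe_filter, Set.mem_ofPred_eq] at he
      have h1 := (hS e).1 he.1
      simp only [mem_coe, mem_erase, SimpleGraph.mem_neighborFinset]
      refine ⟨fun h => h1.2.2 ?_, he.2 ▸ h1.2.1⟩
      rw [h, he.2]
      exact hp v hv
    · intro e he e' he' h
      simp only [coe_filter, Set.mem_ofPred_eq] at he he'
      exact Prod.ext (he.2.trans he'.2.symm) h
  have hdy : ∀ v, (S.filter (fun e => e.2 = v)).card ≤ (G.neighborFinset v).card := by
    intro v
    apply card_le_card_of_injOn Prod.fst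
    · intro e he
      simp only [coe_filter, Set.mem_ofPred_eq] at he
      have := (hS e).1 he.1
      simp only [SimpleGraph.coe_neighborFinset, SimpleGraph.mem_neighborSet]
      rw [← he.2]
      exact this.2.1.symm
    · intro e he e' he' h
      simp only [coe_filter, Set.mem_ofPred_eq] at he he'
      exact Prod.ext h (he.2.trans he'.2.symm)
  have hdy' : ∀ v ∈ H.verts, (S.filter (fun e => e.2 = v)).card ≤
      ((G.neighborFinset v).erase (p v)).card := by
    intro v hv
    apply card_le_card_of_injOn Prod.fst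
    · intro e he
      simp only [coe_filter, Set.mem_ofPred_eq] at he
      have h1 := (hS e).1 he.1
      simp only [mem_coe, mem_erase, SimpleGraph.mem_neighborFinset]
      refine ⟨fun h => h1.2.2 ?_, he.2 ▸ h1.2.1.symm⟩
      rw [h, he.2]
      exact (hp v hv).symm
    · intro e he e' he' h
      simp only [coe_filter, Set.mem_ofPred_eq] at he he'
      exact Prod.ext h (he.2.trans he'.2.symm)
  have hdegc : ∀ v, (G.neighborFinset v).card ≤ d + 1 := by
    intro v
    rw [G.card_neighborFinset_eq_degree]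
    exact hdeg v
  have hdegW : ∀ v ∈ H.verts, ((G.neighborFinset v).erase (p v)).card ≤ d := by
    intro v hv
    rw [card_erase_of_mem (by simpa using (hp v hv).adj_sub)]
    have := hdegc v
    omega
  -- the decomposition
  obtain ⟨D0, hD0, B0, hB0, hDB, ⟨k1, hk1, hk1i⟩, ⟨k2, hk2, hk2i⟩⟩ := dm G.Adj
    (univ.filter (fun v => side v = true ∧ v ∉ H.verts))
    (univ.filter (fun v => side v = false ∧ v ∉ H.verts))
  have hD0' : ∀ v ∈ D0, side v = true ∧ v ∉ H.verts := by
    intro v hv
    have := hD0 hv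
    simpa using this
  have hB0' : ∀ v ∈ B0, side v = false ∧ v ∉ H.verts := by
    intro v hv
    have := hB0 hv
    simpa using this
  -- the picks
  let f : V → V := fun x =>
    if h : ∃ y, (side y = false ∧ y ∉ H.verts) ∧ y ∉ B0 ∧ k2 y = x then Classical.choose h
    else if h' : ∃ y, (x, y) ∈ S then Classical.choose h' else x
  let g : V → V := fun y =>
    if h : ∃ x, (side x = true ∧ x ∉ H.verts) ∧ x ∉ D0 ∧ k1 x = y then Classical.choose h
    else if h' : ∃ x, (x, y) ∈ S then Classical.choose h' else y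
  have hmemX : ∀ v, side v = true → v ∉ H.verts → v ∉ D0 →
      v ∈ univ.filter (fun v => side v = true ∧ v ∉ H.verts) \ D0 := by
    intro v h1 h2 h3
    simp only [mem_sdiff, mem_filter, mem_univ, true_and]
    exact ⟨⟨h1, h2⟩, h3⟩
  have hmemY : ∀ v, side v = false → v ∉ H.verts → v ∉ B0 →
      v ∈ univ.filter (fun v => side v = false ∧ v ∉ H.verts) \ B0 := by
    intro v h1 h2 h3
    simp only [mem_sdiff, mem_filter, mem_univ, true_and]
    exact ⟨⟨h1, h2⟩, h3⟩
  have hf : ∀ x ∈ D0, (∃ y, (x, y) ∈ S) → (x, f x) ∈ S := by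
    intro x hx hex
    by_cases h : ∃ y, (side y = false ∧ y ∉ H.verts) ∧ y ∉ B0 ∧ k2 y = x
    · have hfx : f x = Classical.choose h := dif_pos h
      obtain ⟨⟨hy1, hy2⟩, hy3, hy4⟩ := Classical.choose_spec h
      rw [← hfx] at hy1 hy2 hy3 hy4
      have := (hk2 (f x) (hmemY _ hy1 hy2 hy3)).2
      rw [hy4] at this
      exact (hS _).2 ⟨(hD0' x hx).1, this, fun h => hy2 h.snd_mem⟩
    · have hfx : f x = Classical.choose hex := by
        simp only [f, dif_neg h, dif_pos hex]
      rw [hfx]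
      exact Classical.choose_spec hex
  have hg : ∀ y ∈ B0, (∃ x, (x, y) ∈ S) → (g y, y) ∈ S := by
    intro y hy hex
    by_cases h : ∃ x, (side x = true ∧ x ∉ H.verts) ∧ x ∉ D0 ∧ k1 x = y
    · have hfx : g y = Classical.choose h := dif_pos h
      obtain ⟨⟨hy1, hy2⟩, hy3, hy4⟩ := Classical.choose_spec h
      rw [← hfx] at hy1 hy2 hy3 hy4
      have := (hk1 (g y) (hmemX _ hy1 hy2 hy3)).2
      rw [hy4] at this
      exact (hS _).2 ⟨hy1, this, fun h => hy2 h.fst_mem⟩
    · have hfx : g y = Classical.choose hex := by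
        simp only [g, dif_neg h, dif_pos hex]
      rw [hfx]
      exact Classical.choose_spec hex
  have hcx : ∀ v, d + 1 ≤ (S.filter (fun e => e.1 = v)).card →
      ∃ e ∈ S, e.1 = v ∧ ((e.1 ∈ D0 ∧ e.2 = f e.1) ∨ (e.2 ∈ B0 ∧ e.1 = g e.2)) := by
    intro v hv
    have hvW : v ∉ H.verts := by
      intro hvW
      have h1 := hdx' v hvW
      have h2 := hdegW v hvW
      omega
    obtain ⟨e, he⟩ : (S.filter (fun e => e.1 = v)).Nonempty := by
      rw [← card_pos]; omega
    rw [mem_filter] at he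
    obtain ⟨heS, rfl⟩ := he
    have hs := ((hS e).1 heS).1
    by_cases hD : e.1 ∈ D0
    · exact ⟨(e.1, f e.1), hf e.1 hD ⟨e.2, heS⟩, rfl, Or.inl ⟨hD, rfl⟩⟩
    · have h1 := hk1 e.1 (hmemX _ hs hvW hD)
      have h2 : (e.1, k1 e.1) ∈ S := (hS _).2 ⟨hs, h1.2, fun h => hvW h.fst_mem⟩
      refine ⟨(e.1, k1 e.1), h2, rfl, Or.inr ⟨h1.1, ?_⟩⟩
      have hex : ∃ x, (side x = true ∧ x ∉ H.verts) ∧ x ∉ D0 ∧ k1 x = k1 e.1 :=
        ⟨e.1, ⟨hs, hvW⟩, hD, rfl⟩
      have hgx : g (k1 e.1) = Classical.choose hex := dif_pos hex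
      obtain ⟨⟨hy1, hy2⟩, hy3, hy4⟩ := Classical.choose_spec hex
      rw [← hgx] at hy1 hy2 hy3 hy4
      exact (hk1i _ (hmemX _ hy1 hy2 hy3) _ (hmemX _ hs hvW hD) hy4).symm
  have hcy : ∀ v, d + 1 ≤ (S.filter (fun e => e.2 = v)).card →
      ∃ e ∈ S, e.2 = v ∧ ((e.1 ∈ D0 ∧ e.2 = f e.1) ∨ (e.2 ∈ B0 ∧ e.1 = g e.2)) := by
    intro v hv
    have hvW : v ∉ H.verts := by
      intro hvW
      have h1 := hdy' v hvW
      have h2 := hdegW v hvW
      omega
    obtain ⟨e, he⟩ : (S.filter (fun e => e.2 = v)).Nonempty := by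
      rw [← card_pos]; omega
    rw [mem_filter] at he
    obtain ⟨heS, rfl⟩ := he
    have hs := hside2 e heS
    by_cases hD : e.2 ∈ B0
    · exact ⟨(g e.2, e.2), hg e.2 hD ⟨e.1, heS⟩, rfl, Or.inr ⟨hD, rfl⟩⟩
    · have h1 := hk2 e.2 (hmemY _ hs hvW hD)
      have h2 : (k2 e.2, e.2) ∈ S := (hS _).2 ⟨(hD0' _ h1.1).1, h1.2, fun h => hvW h.snd_mem⟩
      refine ⟨(k2 e.2, e.2), h2, rfl, Or.inl ⟨h1.1, ?_⟩⟩
      have hex : ∃ y, (side y = false ∧ y ∉ H.verts) ∧ y ∉ B0 ∧ k2 y = k2 e.2 :=
        ⟨e.2, ⟨hs, hvW⟩, hD, rfl⟩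
      have hgx : f (k2 e.2) = Classical.choose hex := dif_pos hex
      obtain ⟨⟨hy1, hy2⟩, hy3, hy4⟩ := Classical.choose_spec hex
      rw [← hgx] at hy1 hy2 hy3 hy4
      exact (hk2i _ (hmemY _ hy1 hy2 hy3) _ (hmemY _ hs hvW hD) hy4).symm
  -- the vertex colouring
  have hwn : ∀ v : V, ∃ w : V, (∃ w' ∈ H.verts, G.Adj v w') → w ∈ H.verts ∧ G.Adj v w := by
    intro v
    by_cases h : ∃ w' ∈ H.verts, G.Adj v w'
    · obtain ⟨w, hw⟩ := h
      exact ⟨w, fun _ => hw⟩
    · exact ⟨v, fun h' => absurd h' h⟩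
  choose wn hwn using hwn
  let c1 : V → Fin (d + 3) := fun v => if v ∈ H.verts then c0 v else r (wn v)
  let P : Finset V := univ.filter (fun v => v ∈ H.verts ∨
    ((v ∈ D0 ∨ v ∈ B0) ∧ ∃ w' ∈ H.verts, G.Adj v w'))
  have hP : ∀ v, v ∈ P ↔ v ∈ H.verts ∨ ((v ∈ D0 ∨ v ∈ B0) ∧ ∃ w' ∈ H.verts, G.Adj v w') := by
    intro v
    simp only [P, mem_filter, mem_univ, true_and]
  have hc1a : ∀ v ∈ H.verts, c1 v = c0 v := fun v hv => if_pos hv
  have hc1b : ∀ v, v ∉ H.verts → c1 v = r (wn v) := fun v hv => if_neg hv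
  have hnotW : ∀ v, v ∈ D0 ∨ v ∈ B0 → v ∉ H.verts := by
    intro v hv
    rcases hv with hv | hv
    · exact (hD0' v hv).2
    · exact (hB0' v hv).2
  have hhappy : ∀ v, (v ∈ D0 ∨ v ∈ B0) → ∀ w ∈ H.verts, G.Adj v w → c1 v = r w := by
    intro v hv w hw hvw
    have h1 := hwn v ⟨w, hw, hvw⟩
    rw [hc1b v (hnotW v hv), hF1 v _ h1.1 _ hw h1.2 hvw]
  have hrc : ∀ w ∈ H.verts, r w ≠ c0 w := by
    intro w hw
    exact h0.incidence w (p w) (by simpa using hp w hw)
  obtain ⟨c, hc, hcP⟩ := extend_vertex G (d + 3) (fun v => by have := hdeg v; omega) P c1 (by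
    intro u hu v hv huv
    rw [hP] at hu hv
    rcases hu with hu | ⟨hu, hu'⟩ <;> rcases hv with hv | ⟨hv, hv'⟩
    · rw [hc1a u hu, hc1a v hv]
      exact h0.vertex u v (by simpa using hF2 u hu v hv huv)
    · rw [hc1a u hu, hhappy v hv u hu huv.symm]
      exact (hrc u hu).symm
    · rw [hc1a v hv, hhappy u hu v hv huv]
      exact hrc v hv
    · exfalso
      rcases hu with hu | hu <;> rcases hv with hv | hv
      · exact hside u v huv (((hD0' u hu).1).trans (hD0' v hv).1.symm)
      · exact hDB u hu v hv huv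
      · exact hDB v hv u hu huv.symm
      · exact hside u v huv (((hB0' u hu).1).trans (hB0' v hv).1.symm))
  have hcW : ∀ v ∈ H.verts, c v = c0 v := by
    intro v hv
    rw [hcP v ((hP v).2 (Or.inl hv)), hc1a v hv]
  have hcH : ∀ v, (v ∈ D0 ∨ v ∈ B0) → ∀ w ∈ H.verts, G.Adj v w → c v = r w := by
    intro v hv w hw hvw
    rw [hcP v ((hP v).2 (Or.inr ⟨hv, w, hw, hvw⟩)), hhappy v hv w hw hvw]
  -- the lists
  let L : V × V → Finset (Fin (d + 3)) := fun e => univ.filter (fun γ => γ ≠ c e.1 ∧ γ ≠ c e.2 ∧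
    (e.1 ∈ H.verts → γ ≠ r e.1) ∧ (e.2 ∈ H.verts → γ ≠ r e.2))
  have hLm : ∀ e γ, γ ∈ L e ↔ γ ≠ c e.1 ∧ γ ≠ c e.2 ∧
    (e.1 ∈ H.verts → γ ≠ r e.1) ∧ (e.2 ∈ H.verts → γ ≠ r e.2) := by
    intro e γ
    simp only [L, mem_filter, mem_univ, true_and]
  have hcardsub : ∀ (e : V × V) (F : Finset (Fin (d + 3))), (∀ γ, γ ∉ F → γ ∈ L e) →
      d + 3 ≤ (L e).card + F.card := by
    intro e F hF
    have h1 : (univ : Finset (Fin (d + 3))) ⊆ L e ∪ F := by
      intro γ _
      rw [mem_union]
      by_cases h : γ ∈ F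
      · exact Or.inr h
      · exact Or.inl (hF γ h)
    have h2 := (card_le_card h1).trans (card_union_le _ _)
    rwa [card_univ, Fintype.card_fin] at h2
  have hnotboth : ∀ e ∈ S, e.1 ∈ H.verts → e.2 ∉ H.verts := by
    intro e he h1 h2
    have := (hS e).1 he
    exact this.2.2 (hF2 _ h1 _ h2 this.2.1)
  have hL : ∀ e ∈ S, d ≤ (L e).card := by
    intro e he
    by_cases h1 : e.1 ∈ H.verts
    · have h2 := hnotboth e he h1
      have := hcardsub e {c e.1, c e.2, r e.1} (by
        intro γ hγ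
        simp only [mem_insert, mem_singleton, not_or] at hγ
        rw [hLm]
        exact ⟨hγ.1, hγ.2.1, fun _ => hγ.2.2, fun h => absurd h h2⟩)
      have h3 : ({c e.1, c e.2, r e.1} : Finset (Fin (d + 3))).card ≤ 3 := card_le_three
      omega
    · have := hcardsub e {c e.1, c e.2, r e.2} (by
        intro γ hγ
        simp only [mem_insert, mem_singleton, not_or] at hγ
        rw [hLm]
        exact ⟨hγ.1, hγ.2.1, fun h => absurd h h1, fun _ => hγ.2.2⟩)
      have h3 : ({c e.1, c e.2, r e.2} : Finset (Fin (d + 3))).card ≤ 3 := card_le_three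
      omega
  have hL' : ∀ e ∈ S, e.1 ∈ D0 ∨ e.2 ∈ B0 → d + 1 ≤ (L e).card := by
    intro e he hDB'
    have hadj := ((hS e).1 he).2.1
    have := hcardsub e {c e.1, c e.2} (by
      intro γ hγ
      simp only [mem_insert, mem_singleton, not_or] at hγ
      rw [hLm]
      refine ⟨hγ.1, hγ.2, fun h1 => ?_, fun h2 => ?_⟩
      · rcases hDB' with h | h
        · exact absurd h1 (hD0' _ h).2
        · rw [← hcH e.2 (Or.inr h) e.1 h1 hadj.symm]
          exact hγ.2
      · rcases hDB' with h | h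
        · rw [← hcH e.1 (Or.inl h) e.2 h2 hadj]
          exact hγ.1
        · exact absurd h2 (hB0' _ h).2)
    have h3 : ({c e.1, c e.2} : Finset (Fin (d + 3))).card ≤ 2 := card_le_two
    omega
  obtain ⟨col, hcol1, hcol2⟩ := list_lemma S d (fun v => (hdx v).trans (hdegc v))
    (fun v => (hdy v).trans (hdegc v)) D0 B0
    (fun e he h1 h2 => hDB _ h1 _ h2 ((hS e).1 he).2.1) f g hcx hcy L hL hL'
  -- assemble
  let t : Sym2 V → Fin (d + 3) := fun z => if z ∈ H.edgeSet then t0 z
    else if h : ∃ e ∈ S, s(e.1, e.2) = z then col (Classical.choose h) else 0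
  have ht1 : ∀ u v, H.Adj u v → t s(u, v) = t0 s(u, v) := by
    intro u v huv
    exact if_pos (by simpa using huv)
  have ht2 : ∀ u v, G.Adj u v → ¬ H.Adj u v → side u = true →
      (u, v) ∈ S ∧ t s(u, v) = col (u, v) := by
    intro u v huv hn hs
    have hmem : (u, v) ∈ S := (hS _).2 ⟨hs, huv, hn⟩
    refine ⟨hmem, ?_⟩
    have hex : ∃ e ∈ S, s(e.1, e.2) = s(u, v) := ⟨(u, v), hmem, rfl⟩
    have h1 : t s(u, v) = col (Classical.choose hex) := by
      have hn' : s(u, v) ∉ H.edgeSet := by simpa using hn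
      simp only [t, if_neg hn', dif_pos hex]
    obtain ⟨h2, h3⟩ := Classical.choose_spec hex
    rw [h1]
    congr 1
    rw [Sym2.eq_iff] at h3
    rcases h3 with h3 | h3
    · exact Prod.ext h3.1 h3.2
    · exfalso
      have h4 := hside2 _ h2
      rw [h3.2, hs] at h4
      exact Bool.noConfusion h4
  have ht3 : ∀ u v, G.Adj u v → ¬ H.Adj u v → side u = false →
      (v, u) ∈ S ∧ t s(u, v) = col (v, u) := by
    intro u v huv hn hs
    have hsv : side v = true := by
      have := hside u v huv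
      rw [hs] at this
      cases h : side v
      · exact absurd h.symm this
      · rfl
    have := ht2 v u huv.symm (fun h => hn h.symm) hsv
    rw [Sym2.eq_swap]
    exact this
  have hcase : ∀ u v, G.Adj u v → ¬ H.Adj u v → t s(u, v) ≠ c u ∧
      (u ∈ H.verts → t s(u, v) ≠ r u) := by
    intro u v huv hn
    cases hs : side u
    · obtain ⟨h1, h2⟩ := ht3 u v huv hn hs
      have h3 := (hLm _ _).1 (hcol1 _ h1)
      rw [h2]
      exact ⟨h3.2.1, h3.2.2.2⟩
    · obtain ⟨h1, h2⟩ := ht2 u v huv hn hs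
      have h3 := (hLm _ _).1 (hcol1 _ h1)
      rw [h2]
      exact ⟨h3.1, h3.2.2.1⟩
  refine ⟨c, t, ⟨hc, ?_, ?_⟩, hcW, ?_⟩
  · intro u v w huv huw hvw
    by_cases h1 : H.Adj u v <;> by_cases h2 : H.Adj u w
    · exact absurd ((hpu u v h1).trans (hpu u w h2).symm) hvw
    · rw [ht1 u v h1, hr u v h1]
      exact ((hcase u w huw h2).2 h1.fst_mem).symm
    · rw [ht1 u w h2, hr u w h2]
      exact (hcase u v huv h1).2 h2.fst_mem
    · cases hs : side u
      · obtain ⟨h3, h4⟩ := ht3 u v huv h1 hs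
        obtain ⟨h5, h6⟩ := ht3 u w huw h2 hs
        rw [h4, h6]
        exact hcol2 _ h3 _ h5 (fun h => hvw (Prod.ext_iff.1 h).1) (Or.inr rfl)
      · obtain ⟨h3, h4⟩ := ht2 u v huv h1 hs
        obtain ⟨h5, h6⟩ := ht2 u w huw h2 hs
        rw [h4, h6]
        exact hcol2 _ h3 _ h5 (fun h => hvw (Prod.ext_iff.1 h).2) (Or.inl rfl)
  · intro u v huv
    by_cases h1 : H.Adj u v
    · rw [ht1 u v h1, hr u v h1, hcW u h1.fst_mem]
      exact hrc u h1.fst_mem
    · exact (hcase u v huv h1).1
  · intro e he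
    exact if_pos he

/-- Every distance-3 matching of a bipartite graph: extension with any number `k ≥ Δ + 2` of
colours. -/
theorem bipartite_extends (G : SimpleGraph V) [DecidableRel G.Adj] (hG : G.IsBipartite)
    (H : G.Subgraph) (hH : IsDistThreeMatching H) (k : ℕ) (hk : G.maxDegree + 2 ≤ k) :
    EveryTotalColoringExtends H (Fin k) := by
  classical
  intro c0 t0 h0
  obtain ⟨col⟩ := hG
  rcases Nat.lt_or_ge k 3 with hk3 | hk3
  · have hno : ∀ u v, ¬ G.Adj u v := by
      intro u v huv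
      have h1 : 0 < G.degree u := by
        rw [SimpleGraph.degree_pos_iff_exists_adj]
        exact ⟨v, huv⟩
      have h2 := G.degree_le_maxDegree u
      omega
    exact ⟨c0, t0, ⟨fun u v h => absurd h (hno u v), fun u v w h => absurd h (hno u v),
      fun u v h => absurd h (hno u v)⟩, fun _ _ => rfl, fun _ _ => rfl⟩
  · obtain ⟨d, rfl⟩ : ∃ d, k = d + 3 := ⟨k - 3, by omega⟩
    refine bip_main G d (fun v => ?_) (fun v => decide (col v = 0)) ?_ H hH c0 t0 h0
    · have := G.degree_le_maxDegree v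
      omega
    · intro u v huv h
      have h1 := col.valid huv
      rw [decide_eq_decide] at h
      apply h1
      revert h
      generalize col u = a
      generalize col v = b
      revert a b
      decide

end MP_db9399_co
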