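import Pool.Agent.Work.MP_db9399_co.Defs
import Pool.Agent.Work.MP_db9399_co.Bip

/-!
Q1 holds for every bipartite graph: if `G` is a finite bipartite graph with maximum degree `Δ` and
`H` is a distance-3 matching in `G`, then every total colouring of `H` with `k ≥ Δ + 2` colours is
the restriction of a total colouring of `G` with the same `k` colours.
-/

namespace Pool.Agent.Work.MP_db9399_co.BipartiteGraphsOld

open _root_.MP_db9399_co

universe u

/-- For every finite bipartite graph `G`, every distance-3 matching `H` in `G` and every
`k ≥ Δ(G) + 2`, every total-`k`-colouring of `H` extends to a total-`k`-colouring of `G`. -/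
theorem result (V : Type u) [Fintype V] (G : SimpleGraph V) [DecidableRel G.Adj]
    (hG : G.IsBipartite) (H : G.Subgraph) (hH : IsDistThreeMatching H) (k : ℕ)
    (hk : G.maxDegree + 2 ≤ k) : EveryTotalColoringExtends H (Fin k) := by
  classical
  exact bipartite_extends G hG H hH k hk

end Pool.Agent.Work.MP_db9399_co.BipartiteGraphsOld
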