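import Mathlib

/-!
Peeling (discharging) lemma for MP_db9399_co (helper70 for helper75).
-/

set_option autoImplicit false

namespace Pool.Agent.Work.MP_db9399_co

open Finset

namespace Peel70

variable {V : Type*} [DecidableEq V]

/-- number of pairs of `F` at the left end `x` -/
def dL (F : Finset (V × V)) (x : V) : ℕ := (F.filter (fun e => e.1 = x)).card

/-- number of pairs of `F` at the right end `y` -/
def dR (F : Finset (V × V)) (y : V) : ℕ := (F.filter (fun e => e.2 = y)).card

lemma dL_mono {F G : Finset (V × V)} (h : F ⊆ G) (x : V) : dL F x ≤ dL G x :=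
  card_le_card (filter_subset_filter _ h)

lemma dR_mono {F G : Finset (V × V)} (h : F ⊆ G) (x : V) : dR F x ≤ dR G x :=
  card_le_card (filter_subset_filter _ h)

lemma dR_lt {F G : Finset (V × V)} (h : F ⊆ G) {p : V × V} (hp : p ∈ G) (hp' : p ∉ F) :
    dR F p.2 + 1 ≤ dR G p.2 := by
  have : F.filter (fun e => e.2 = p.2) ⊂ G.filter (fun e => e.2 = p.2) := by
    refine ⟨filter_subset_filter _ h, fun hh => ?_⟩
    have : p ∈ F.filter (fun e => e.2 = p.2) := hh (by simp [hp])
    exact hp' (mem_filter.1 this).1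
  exact card_lt_card this

lemma dL_erase_self {F : Finset (V × V)} {p : V × V} (hp : p ∈ F) :
    dL (F.erase p) p.1 + 1 = dL F p.1 := by
  unfold dL
  have : (F.erase p).filter (fun e => e.1 = p.1) = (F.filter (fun e => e.1 = p.1)).erase p := by
    ext e; simp only [mem_filter, mem_erase]; tauto
  rw [this, card_erase_of_mem (by simp [hp])]
  have : 0 < (F.filter (fun e => e.1 = p.1)).card := card_pos.2 ⟨p, by simp [hp]⟩
  omega

lemma dL_erase_of_ne {F : Finset (V × V)} {p : V × V} {x : V} (hx : x ≠ p.1) :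
    dL (F.erase p) x = dL F x := by
  unfold dL
  congr 1
  ext e; simp only [mem_filter, mem_erase]
  constructor
  · rintro ⟨⟨_, h1⟩, h2⟩; exact ⟨h1, h2⟩
  · rintro ⟨h1, h2⟩; exact ⟨⟨by rintro rfl; exact hx h2.symm, h1⟩, h2⟩

lemma dL_filter_ne_self {F : Finset (V × V)} {x : V} :
    dL (F.filter (fun e => e.1 ≠ x)) x = 0 := by
  unfold dL
  rw [card_eq_zero, filter_filter]
  apply filter_eq_empty_iff.2
  rintro e _ ⟨h1, h2⟩
  exact h1 h2

lemma dL_filter_ne_of_ne {F : Finset (V × V)} {x z : V} (hz : z ≠ x) :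
    dL (F.filter (fun e => e.1 ≠ x)) z = dL F z := by
  unfold dL
  congr 1
  ext e; simp only [mem_filter]
  constructor
  · rintro ⟨⟨h1, _⟩, h2⟩; exact ⟨h1, h2⟩
  · rintro ⟨h1, h2⟩; exact ⟨⟨h1, by rw [h2]; exact hz⟩, h2⟩

variable [Fintype V]

/-- the weight -/
def w (m b : ℕ) (d : V → ℕ) (F : Finset (V × V)) : ℕ :=
  ∑ x : V, if dL F x = 0 then 0 else (b - (d x - dL F x)) * (m - d x)

/-- the capacity -/
def P (m : ℕ) (sl : V → ℕ) (F : Finset (V × V)) : ℕ :=
  ∑ y : V, ∑ i ∈ range (dR F y), ((m - 2 - sl y) - i)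

lemma P_step (m : ℕ) (sl : V → ℕ) {F G : Finset (V × V)} (h : F ⊆ G) {p : V × V} (hp : p ∈ G)
    (hp' : p ∉ F) :
    P m sl F + ((m - 2 - sl p.2) - (dR G p.2 - 1)) ≤ P m sl G := by
  unfold P
  have key : ∀ y : V, (∑ i ∈ range (dR F y), ((m - 2 - sl y) - i)) +
      (if y = p.2 then ((m - 2 - sl p.2) - (dR G p.2 - 1)) else 0) ≤
      ∑ i ∈ range (dR G y), ((m - 2 - sl y) - i) := by
    intro y
    by_cases hy : y = p.2
    · subst hy
      rw [if_pos rfl]
      have h1 := dR_lt h hp hp'
      obtain ⟨j, hj⟩ : ∃ j, dR G p.2 = j + 1 := ⟨dR G p.2 - 1, by omega⟩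
      rw [hj, sum_range_succ]
      have : range (dR F p.2) ⊆ range j := range_subset_range.2 (by omega)
      have := sum_le_sum_of_subset (f := fun i => (m - 2 - sl p.2) - i) this
      simp only [Nat.add_sub_cancel]
      omega
    · rw [if_neg hy, add_zero]
      exact sum_le_sum_of_subset (range_subset_range.2 (dR_mono h y))
  calc _ = ∑ y : V, ((∑ i ∈ range (dR F y), ((m - 2 - sl y) - i)) +
      (if y = p.2 then ((m - 2 - sl p.2) - (dR G p.2 - 1)) else 0)) := by
        rw [sum_add_distrib]; simp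
    _ ≤ _ := sum_le_sum (fun y _ => key y)

lemma w_step (m b : ℕ) (d : V → ℕ) {F G : Finset (V × V)} (x : V)
    (h1 : ∀ z, z ≠ x → dL F z = dL G z)
    (h2 : (if dL G x = 0 then 0 else (b - (d x - dL G x)) * (m - d x)) ≤
      (if dL F x = 0 then 0 else (b - (d x - dL F x)) * (m - d x)) + (m - d x)) :
    w m b d G ≤ w m b d F + (m - d x) := by
  unfold w
  have key : ∀ z : V, (if dL G z = 0 then 0 else (b - (d z - dL G z)) * (m - d z)) ≤
      (if dL F z = 0 then 0 else (b - (d z - dL F z)) * (m - d z)) +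
      (if z = x then (m - d x) else 0) := by
    intro z
    by_cases hz : z = x
    · subst hz; simpa using h2
    · rw [h1 z hz, if_neg hz, add_zero]
  calc _ ≤ ∑ z : V, ((if dL F z = 0 then 0 else (b - (d z - dL F z)) * (m - d z)) +
      (if z = x then (m - d x) else 0)) := sum_le_sum (fun y _ => key y)
    _ = _ := by rw [sum_add_distrib]; simp

theorem main (m b : ℕ) (d sl : V → ℕ) (E0 : Finset (V × V))
    (hd : ∀ p ∈ E0, d p.1 + 1 ≤ m) (hsl : ∀ y, b ≤ sl y + 1)
    (hE0 : ∀ p ∈ E0, dL E0 p.1 = d p.1)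
    (hno : ∀ F ⊆ E0, F.Nonempty → (∀ p ∈ F, d p.1 + 1 ≤ dL F p.1 + b) →
      ∃ p ∈ F, dR F p.2 + sl p.2 < d p.1) :
    ∀ n : ℕ, ∀ F ⊆ E0, F.card ≤ n → (∀ p ∈ F, d p.1 + 1 ≤ dL F p.1 + b) →
      w m b d F ≤ P m sl F := by
  intro n
  induction n with
  | zero =>
    intro F _ hc _
    have : F = ∅ := card_eq_zero.1 (by omega)
    subst this
    simp [w, P, dL, dR]
  | succ n ih =>
    intro F hF hc hF1
    by_cases hne : F.Nonempty
    swap
    · rw [not_nonempty_iff_eq_empty] at hne
      subst hne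
      simp [w, P, dL, dR]
    obtain ⟨p, hp, hlt⟩ := hno F hF hne hF1
    have hdp := hd p (hF hp)
    have hs := hsl p.2
    have hR1 : 1 ≤ dR F p.2 := card_pos.2 ⟨p, by simp [hp]⟩
    have hF1p := hF1 p hp
    have hle : dL F p.1 ≤ d p.1 := by
      rw [← hE0 p (hF hp)]; exact dL_mono hF _
    have hcap : m - d p.1 ≤ (m - 2 - sl p.2) - (dR F p.2 - 1) := by omega
    by_cases hcase : d p.1 + 2 ≤ dL F p.1 + b
    · -- erase one edge
      have hsub : F.erase p ⊆ F := erase_subset _ _
      have hL := dL_erase_self hp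
      have hw := w_step m b d (F := F.erase p) (G := F) p.1
        (fun z hz => dL_erase_of_ne hz) (by
          rw [if_neg (by omega), if_neg (by omega)]
          obtain ⟨e, he⟩ : ∃ e, dL F p.1 = e + 1 := ⟨dL F p.1 - 1, by omega⟩
          have he' : dL (F.erase p) p.1 = e := by omega
          rw [he, he']
          have : b - (d p.1 - (e + 1)) = (b - (d p.1 - e)) + 1 := by omega
          rw [this]
          exact le_of_eq (by ring))
      have hP := P_step m sl hsub hp (notMem_erase p F)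
      have hi := ih (F.erase p) (hsub.trans hF) (by rw [card_erase_of_mem hp]; omega) (by
        intro q hq
        by_cases hqp : q.1 = p.1
        · rw [hqp]; omega
        · rw [dL_erase_of_ne hqp]; exact hF1 q (hsub hq))
      omega
    · have hsub : F.filter (fun e => e.1 ≠ p.1) ⊆ F := filter_subset _ _
      have hpn : p ∉ F.filter (fun e => e.1 ≠ p.1) := by simp
      have hw := w_step m b d (F := F.filter (fun e => e.1 ≠ p.1)) (G := F) p.1
        (fun z hz => dL_filter_ne_of_ne hz) (by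
          rw [dL_filter_ne_self, if_pos rfl, zero_add]
          split_ifs with h0
          · exact Nat.zero_le _
          · have : b - (d p.1 - dL F p.1) = 1 := by omega
            rw [this, one_mul])
      have hP := P_step m sl hsub hp hpn
      have hi := ih (F.filter (fun e => e.1 ≠ p.1)) (hsub.trans hF) (by
          have : (F.filter (fun e => e.1 ≠ p.1)).card < F.card :=
            card_lt_card ⟨hsub, fun hh => hpn (hh hp)⟩
          omega) (by
        intro q hq
        have hqp : q.1 ≠ p.1 := (mem_filter.1 hq).2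
        rw [dL_filter_ne_of_ne hqp]; exact hF1 q (hsub hq))
      omega

end Peel70

open Peel70 in
theorem peel {V : Type*} [Fintype V] [DecidableEq V] (m b : ℕ) (hb : 1 ≤ b) (d sl : V → ℕ)
    (E0 : Finset (V × V))
    (hd : ∀ p ∈ E0, d p.1 + 1 ≤ m) (hsl : ∀ y, b ≤ sl y + 1)
    (hE0 : ∀ p ∈ E0, (E0.filter (fun e => e.1 = p.1)).card = d p.1)
    (hno : ∀ F ⊆ E0, F.Nonempty →
      (∀ p ∈ F, d p.1 + 1 ≤ (F.filter (fun e => e.1 = p.1)).card + b) →
      ∃ p ∈ F, (F.filter (fun e => e.2 = p.2)).card + sl p.2 < d p.1) :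
    b * ∑ x ∈ E0.image Prod.fst, (m - d x) ≤
      ∑ y : V, ∑ i ∈ Finset.range (E0.filter (fun e => e.2 = y)).card, ((m - 2 - sl y) - i) := by
  have h := Peel70.main m b d sl E0 hd hsl hE0 hno E0.card E0 (Subset.refl _) le_rfl (by
    intro p hp
    have := hE0 p hp
    unfold dL
    omega)
  refine le_trans (le_of_eq ?_) h
  unfold w
  rw [mul_sum, ← sum_filter_add_sum_filter_not univ (fun x => x ∈ E0.image Prod.fst)]
  have h2 : (∑ x ∈ univ.filter (fun x => ¬ x ∈ E0.image Prod.fst),
      if dL E0 x = 0 then 0 else (b - (d x - dL E0 x)) * (m - d x)) = 0 := by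
    apply sum_eq_zero
    intro x hx
    have hx' : x ∉ E0.image Prod.fst := (mem_filter.1 hx).2
    have : dL E0 x = 0 := by
      unfold dL
      rw [card_eq_zero]
      apply filter_eq_empty_iff.2
      intro e he hex
      exact hx' (mem_image.2 ⟨e, he, hex⟩)
    rw [if_pos this]
  rw [h2, add_zero]
  have h3 : univ.filter (fun x => x ∈ E0.image Prod.fst) = E0.image Prod.fst := by
    ext x; simp
  rw [h3]
  apply sum_congr rfl
  intro x hx
  obtain ⟨p, hp, rfl⟩ := mem_image.1 hx
  have h4 : dL E0 p.1 = d p.1 := hE0 p hp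
  have h5 : 1 ≤ dL E0 p.1 := card_pos.2 ⟨p, by simp [hp]⟩
  rw [if_neg (by omega), h4]
  simp

end Pool.Agent.Work.MP_db9399_co
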