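import Mathlib
import Pool.Agent.Work.MP_db9399_co.BKW75

/-!
# Reduction steps for total colourings extending a precoloured part
-/

set_option autoImplicit false

namespace Pool.Agent.Work.MP_db9399_co

open Finset

section Steps

variable {V C : Type*} [Fintype V] [DecidableEq V] [Fintype C] [DecidableEq C]

open Classical in
/-- neighbours as a finset -/
noncomputable def nb (G : SimpleGraph V) (v : V) : Finset V := univ.filter (fun w => G.Adj v w)

omit [DecidableEq V] in
@[simp] lemma mem_nb (G : SimpleGraph V) (v w : V) : w ∈ nb G v ↔ G.Adj v w := by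
  classical simp [nb]

/-- A total colouring of `G` extending the prescription `c0, e0` on the set `W` and with the
vertices `v` outside `W` avoiding `forb v`. -/
structure Good (G : SimpleGraph V) (W : Finset V) (c0 : V → C) (e0 : Sym2 V → C)
    (forb : V → Finset C) (c : V → C) (e : Sym2 V → C) : Prop where
  vtx : ∀ v ∈ W, c v = c0 v
  edg : ∀ u ∈ W, ∀ v ∈ W, G.Adj u v → e s(u, v) = e0 s(u, v)
  frb : ∀ v, v ∉ W → c v ∉ forb v
  adj : ∀ v w, G.Adj v w → c v ≠ c w
  inc : ∀ v w, G.Adj v w → e s(v, w) ≠ c v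
  prp : ∀ v w w', G.Adj v w → G.Adj v w' → w ≠ w' → e s(v, w) ≠ e s(v, w')

/-- one edge between `W` and its complement with small degree sum can be coloured last -/
lemma step_single (G : SimpleGraph V) (W : Finset V) (c0 : V → C) (e0 : Sym2 V → C)
    (forb : V → Finset C) (u w : V) (hu : u ∈ W) (hw : w ∉ W) (huw : G.Adj u w)
    (hf : c0 u ∈ forb w)
    (hdeg : (nb G u).card + (nb G w).card + 1 ≤ Fintype.card C)
    (h : ∃ c e, Good (G.deleteEdges {s(u, w)}) W c0 e0 forb c e) :
    ∃ c e, Good G W c0 e0 forb c e := by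
  classical
  obtain ⟨c, e, hg⟩ := h
  set G' := G.deleteEdges {s(u, w)} with hG'
  have hadj' : ∀ x y, G'.Adj x y ↔ G.Adj x y ∧ s(x, y) ≠ s(u, w) := by
    intro x y
    rw [hG', SimpleGraph.deleteEdges_adj]
    simp
  -- forbidden colours
  set B : Finset C := {c u, c w} ∪ ((nb G' u).image (fun z => e s(u, z)) ∪
    (nb G' w).image (fun z => e s(w, z))) with hB
  have hcu : (nb G' u).card + 1 ≤ (nb G u).card := by
    have hss : nb G' u ⊂ nb G u := by
      refine ⟨fun z hz => ?_, fun hh => ?_⟩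
      · rw [mem_nb] at hz ⊢
        exact ((hadj' _ _).1 hz).1
      · have := hh ((mem_nb G u w).2 huw)
        rw [mem_nb, hadj'] at this
        exact this.2 rfl
    exact card_lt_card hss
  have hcw : (nb G' w).card + 1 ≤ (nb G w).card := by
    have hss : nb G' w ⊂ nb G w := by
      refine ⟨fun z hz => ?_, fun hh => ?_⟩
      · rw [mem_nb] at hz ⊢
        exact ((hadj' _ _).1 hz).1
      · have := hh ((mem_nb G w u).2 huw.symm)
        rw [mem_nb, hadj'] at this
        exact this.2 Sym2.eq_swap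
    exact card_lt_card hss
  have hBcard : B.card < Fintype.card C := by
    have h1 : B.card ≤ 2 + ((nb G' u).card + (nb G' w).card) := by
      refine (card_union_le _ _).trans ?_
      refine Nat.add_le_add card_le_two ?_
      refine (card_union_le _ _).trans ?_
      exact Nat.add_le_add card_image_le card_image_le
    omega
  obtain ⟨a, ha⟩ : ∃ a, a ∉ B := by
    by_contra hcon
    push Not at hcon
    have : B = univ := by ext x; simp [hcon x]
    rw [this, card_univ] at hBcard
    exact lt_irrefl _ hBcard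
  have ha1 : a ≠ c u := fun h => ha (by rw [hB, h]; simp)
  have ha2 : a ≠ c w := fun h => ha (by rw [hB, h]; simp)
  have ha3 : ∀ z, G'.Adj u z → a ≠ e s(u, z) := fun z hz h => ha (by
    rw [hB, mem_union, mem_union]
    exact Or.inr (Or.inl (mem_image.2 ⟨z, (mem_nb _ _ _).2 hz, h.symm⟩)))
  have ha4 : ∀ z, G'.Adj w z → a ≠ e s(w, z) := fun z hz h => ha (by
    rw [hB, mem_union, mem_union]
    exact Or.inr (Or.inr (mem_image.2 ⟨z, (mem_nb _ _ _).2 hz, h.symm⟩)))
  have hcuw : c u ≠ c w := by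
    rw [hg.vtx u hu]
    intro hh
    exact hg.frb w hw (hh ▸ hf)
  refine ⟨c, fun s => if s = s(u, w) then a else e s, ?_⟩
  constructor
  · exact hg.vtx
  · intro x hx y hy hxy
    have hne : s(x, y) ≠ s(u, w) := by
      intro hh
      rw [Sym2.eq_iff] at hh
      rcases hh with ⟨_, h2⟩ | ⟨h1, _⟩
      · exact hw (h2 ▸ hy)
      · exact hw (h1 ▸ hx)
    simp only [hne, if_false]
    exact hg.edg x hx y hy ((hadj' _ _).2 ⟨hxy, hne⟩)
  · exact hg.frb
  · intro x y hxy
    by_cases hne : s(x, y) = s(u, w)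
    · rw [Sym2.eq_iff] at hne
      rcases hne with ⟨h1, h2⟩ | ⟨h1, h2⟩
      · rw [h1, h2]; exact hcuw
      · rw [h1, h2]; exact hcuw.symm
    · exact hg.adj x y ((hadj' _ _).2 ⟨hxy, hne⟩)
  · intro x y hxy
    by_cases hne : s(x, y) = s(u, w)
    · simp only [hne, if_true]
      rw [Sym2.eq_iff] at hne
      rcases hne with ⟨h1, h2⟩ | ⟨h1, h2⟩
      · rw [h1]; exact ha1
      · rw [h1]; exact ha2
    · simp only [hne, if_false]
      exact hg.inc x y ((hadj' _ _).2 ⟨hxy, hne⟩)
  · intro x y y' hxy hxy' hyy'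
    by_cases hne : s(x, y) = s(u, w) <;> by_cases hne' : s(x, y') = s(u, w)
    · exfalso
      rw [← hne', Sym2.eq_iff] at hne
      rcases hne with ⟨_, h2⟩ | ⟨h1, h2⟩
      · exact hyy' h2
      · exact hyy' (h2.trans h1)
    · simp only [hne, hne', if_true, if_false]
      have hG'' := (hadj' _ _).2 ⟨hxy', hne'⟩
      rw [Sym2.eq_iff] at hne
      rcases hne with ⟨h1, h2⟩ | ⟨h1, h2⟩
      · subst h1; exact ha3 _ hG''
      · subst h1; exact ha4 _ hG''
    · simp only [hne, hne', if_true, if_false]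
      have hG'' := (hadj' _ _).2 ⟨hxy, hne⟩
      rw [Sym2.eq_iff] at hne'
      rcases hne' with ⟨h1, h2⟩ | ⟨h1, h2⟩
      · subst h1; exact (ha3 _ hG'').symm
      · subst h1; exact (ha4 _ hG'').symm
    · simp only [hne, hne', if_false]
      exact hg.prp x y y' ((hadj' _ _).2 ⟨hxy, hne⟩) ((hadj' _ _).2 ⟨hxy', hne'⟩) hyy'

/-- delete the edges of a bipartite set `F` of pairs, colour the rest, list-colour the edges of `F`
and recolour the left ends -/
lemma step_F (G : SimpleGraph V) (W : Finset V) (c0 : V → C) (e0 : Sym2 V → C)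
    (forb : V → Finset C) (F : Finset (V × V))
    (hF : ∀ p ∈ F, G.Adj p.1 p.2) (hFW : ∀ p ∈ F, p.1 ∉ W)
    (hind : ∀ p ∈ F, ∀ p' ∈ F, ¬ G.Adj p.1 p'.1)
    (hforb : ∀ p ∈ F, (forb p.1).card ≤ 2)
    (hrec : ∀ p ∈ F, 2 * (nb G p.1).card + 3 ≤ Fintype.card C)
    (hlist : ∀ p ∈ F, (nb G p.1).card + (nb G p.2).card + 1 +
      max (F.filter (fun e' => e'.1 = p.1)).card (F.filter (fun e' => e'.2 = p.2)).card ≤
      Fintype.card C + (F.filter (fun e' => e'.1 = p.1)).card +
        (F.filter (fun e' => e'.2 = p.2)).card)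
    (h : ∃ c e, Good (G.deleteEdges {s | ∃ p ∈ F, s = s(p.1, p.2)}) W c0 e0 forb c e) :
    ∃ c e, Good G W c0 e0 forb c e := by
  classical
  obtain ⟨c, e, hg⟩ := h
  set G' := G.deleteEdges {s | ∃ p ∈ F, s = s(p.1, p.2)} with hG'
  have hadj' : ∀ x y, G'.Adj x y ↔ G.Adj x y ∧ ¬ ∃ p ∈ F, s(x, y) = s(p.1, p.2) := by
    intro x y
    rw [hG', SimpleGraph.deleteEdges_adj]
    simp
  -- basic facts on `F`
  have huniq : ∀ p ∈ F, ∀ p' ∈ F, s(p.1, p.2) = s(p'.1, p'.2) → p = p' := by
    intro p hp p' hp' hh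
    rw [Sym2.eq_iff] at hh
    rcases hh with ⟨h1, h2⟩ | ⟨h1, h2⟩
    · exact Prod.ext h1 h2
    · exact absurd (h2 ▸ hF p hp) (hind p hp p' hp')
  have hcross : ∀ p ∈ F, ∀ p' ∈ F, p.1 ≠ p'.2 := by
    intro p hp p' hp' hh
    exact hind p' hp' p hp (hh ▸ hF p' hp')
  -- degrees in `G'`
  have hdL : ∀ p ∈ F, (nb G' p.1).card + (F.filter (fun e' => e'.1 = p.1)).card ≤
      (nb G p.1).card := by
    intro p hp
    have hinj : ((F.filter (fun e' => e'.1 = p.1)).image Prod.snd).card =
        (F.filter (fun e' => e'.1 = p.1)).card := by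
      apply card_image_of_injOn
      intro x hx y hy hxy
      simp only [coe_filter, Set.mem_setOf_eq] at hx hy
      exact Prod.ext (hx.2.trans hy.2.symm) hxy
    rw [← hinj, ← card_union_of_disjoint]
    · apply card_le_card
      intro z hz
      rw [mem_union] at hz
      rcases hz with hz | hz
      · rw [mem_nb] at hz ⊢
        exact ((hadj' _ _).1 hz).1
      · rw [mem_image] at hz
        obtain ⟨x, hx, rfl⟩ := hz
        rw [mem_filter] at hx
        rw [mem_nb, ← hx.2]
        exact hF x hx.1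
    · rw [disjoint_left]
      intro z hz hz'
      rw [mem_image] at hz'
      obtain ⟨x, hx, rfl⟩ := hz'
      rw [mem_filter] at hx
      rw [mem_nb, hadj'] at hz
      exact hz.2 ⟨x, hx.1, by rw [hx.2]⟩
  have hdR : ∀ p ∈ F, (nb G' p.2).card + (F.filter (fun e' => e'.2 = p.2)).card ≤
      (nb G p.2).card := by
    intro p hp
    have hinj : ((F.filter (fun e' => e'.2 = p.2)).image Prod.fst).card =
        (F.filter (fun e' => e'.2 = p.2)).card := by
      apply card_image_of_injOn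
      intro x hx y hy hxy
      simp only [coe_filter, Set.mem_setOf_eq] at hx hy
      exact Prod.ext hxy (hx.2.trans hy.2.symm)
    rw [← hinj, ← card_union_of_disjoint]
    · apply card_le_card
      intro z hz
      rw [mem_union] at hz
      rcases hz with hz | hz
      · rw [mem_nb] at hz ⊢
        exact ((hadj' _ _).1 hz).1
      · rw [mem_image] at hz
        obtain ⟨x, hx, rfl⟩ := hz
        rw [mem_filter] at hx
        rw [mem_nb, ← hx.2]
        exact (hF x hx.1).symm
    · rw [disjoint_left]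
      intro z hz hz'
      rw [mem_image] at hz'
      obtain ⟨x, hx, rfl⟩ := hz'
      rw [mem_filter] at hx
      rw [mem_nb, hadj'] at hz
      exact hz.2 ⟨x, hx.1, by rw [hx.2]; exact Sym2.eq_swap⟩
  -- the lists
  set B : V × V → Finset C := fun p => {c p.2} ∪ ((nb G' p.1).image (fun z => e s(p.1, z)) ∪
    (nb G' p.2).image (fun z => e s(p.2, z))) with hB
  have hBcard : ∀ p, (B p).card ≤ 1 + ((nb G' p.1).card + (nb G' p.2).card) := by
    intro p
    refine (card_union_le _ _).trans ?_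
    refine Nat.add_le_add (by simp) ?_
    refine (card_union_le _ _).trans ?_
    exact Nat.add_le_add card_image_le card_image_le
  by_cases hC : Nonempty C
  swap
  · -- no colours: impossible unless F is empty
    rcases F.eq_empty_or_nonempty with hFe | ⟨p, hp⟩
    · have : G' = G := by
        ext x y
        rw [hadj']
        simp [hFe]
      rw [this] at hg
      exact ⟨c, e, hg⟩
    · exact absurd ⟨c p.1⟩ hC
  obtain ⟨f, hf1, hf2⟩ := bkw F (fun p => univ \ B p) (by
    intro p hp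
    rw [card_sdiff_of_subset (subset_univ _), card_univ]
    have h1 := hBcard p
    have h2 := hdL p hp
    have h3 := hdR p hp
    have h4 := hlist p hp
    omega)
  have hfB : ∀ p ∈ F, f p ∉ B p := fun p hp => (mem_sdiff.1 (hf1 p hp)).2
  have hfB1 : ∀ p ∈ F, f p ≠ c p.2 := fun p hp hh => hfB p hp (by rw [hB]; simp [hh])
  have hfB2 : ∀ p ∈ F, ∀ z, G'.Adj p.1 z → f p ≠ e s(p.1, z) := fun p hp z hz hh =>
    hfB p hp (by
      rw [hB]
      simp only [mem_union]
      exact Or.inr (Or.inl (mem_image.2 ⟨z, (mem_nb _ _ _).2 hz, hh.symm⟩)))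
  have hfB3 : ∀ p ∈ F, ∀ z, G'.Adj p.2 z → f p ≠ e s(p.2, z) := fun p hp z hz hh =>
    hfB p hp (by
      rw [hB]
      simp only [mem_union]
      exact Or.inr (Or.inr (mem_image.2 ⟨z, (mem_nb _ _ _).2 hz, hh.symm⟩)))
  -- the new edge colouring
  set E' : Sym2 V → C := fun s => if hs : ∃ p ∈ F, s = s(p.1, p.2) then f (Classical.choose hs)
    else e s with hE'
  have hE1 : ∀ p ∈ F, E' s(p.1, p.2) = f p := by
    intro p hp
    have hs : ∃ p' ∈ F, s(p.1, p.2) = s(p'.1, p'.2) := ⟨p, hp, rfl⟩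
    have hch := Classical.choose_spec hs
    simp only [hE']
    rw [dif_pos hs]
    rw [← huniq p hp _ hch.1 hch.2]
  have hE2 : ∀ s, (¬ ∃ p ∈ F, s = s(p.1, p.2)) → E' s = e s := by
    intro s hs
    simp only [hE']
    rw [dif_neg hs]
  -- recolouring of the left ends
  have hrc : ∀ v, (∃ p ∈ F, p.1 = v) → ∃ a, a ∉ forb v ∧ (∀ z, G.Adj v z → a ≠ c z) ∧
      (∀ z, G.Adj v z → a ≠ E' s(v, z)) := by
    rintro v ⟨p, hp, rfl⟩
    have h1 := hforb p hp
    have h2 := hrec p hp
    set A : Finset C := forb p.1 ∪ ((nb G p.1).image c ∪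
      (nb G p.1).image (fun z => E' s(p.1, z))) with hA
    have hAc : A.card < Fintype.card C := by
      have h3 : A.card ≤ (forb p.1).card + ((nb G p.1).card + (nb G p.1).card) := by
        refine (card_union_le _ _).trans ?_
        refine Nat.add_le_add le_rfl ?_
        refine (card_union_le _ _).trans ?_
        exact Nat.add_le_add card_image_le card_image_le
      omega
    obtain ⟨a, ha⟩ : ∃ a, a ∉ A := by
      by_contra hcon
      push Not at hcon
      have : A = univ := by ext x; simp [hcon x]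
      rw [this, card_univ] at hAc
      exact lt_irrefl _ hAc
    refine ⟨a, fun hh => ha (by rw [hA]; simp [hh]), fun z hz hh => ha ?_, fun z hz hh => ha ?_⟩
    · rw [hA]
      simp only [mem_union]
      exact Or.inr (Or.inl (mem_image.2 ⟨z, (mem_nb _ _ _).2 hz, hh.symm⟩))
    · rw [hA]
      simp only [mem_union]
      exact Or.inr (Or.inr (mem_image.2 ⟨z, (mem_nb _ _ _).2 hz, hh.symm⟩))
  choose! r hr1 hr2 hr3 using hrc
  refine ⟨fun v => if ∃ p ∈ F, p.1 = v then r v else c v, E', ?_⟩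
  constructor
  · intro v hv
    have : ¬ ∃ p ∈ F, p.1 = v := by
      rintro ⟨p, hp, rfl⟩
      exact hFW p hp hv
    simp only [this, if_false]
    exact hg.vtx v hv
  · intro x hx y hy hxy
    have hnot : ¬ ∃ p ∈ F, s(x, y) = s(p.1, p.2) := by
      rintro ⟨p, hp, hh⟩
      rw [Sym2.eq_iff] at hh
      rcases hh with ⟨h1, _⟩ | ⟨_, h2⟩
      · exact hFW p hp (h1 ▸ hx)
      · exact hFW p hp (h2 ▸ hy)
    rw [hE2 _ hnot]
    exact hg.edg x hx y hy ((hadj' _ _).2 ⟨hxy, hnot⟩)
  · intro v hv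
    by_cases hx : ∃ p ∈ F, p.1 = v
    · simp only [hx, if_true]
      exact hr1 v hx
    · simp only [hx, if_false]
      exact hg.frb v hv
  · intro v w hvw
    by_cases hv : ∃ p ∈ F, p.1 = v <;> by_cases hw : ∃ p ∈ F, p.1 = w
    · exfalso
      obtain ⟨p, hp, rfl⟩ := hv
      obtain ⟨p', hp', rfl⟩ := hw
      exact hind p hp p' hp' hvw
    · simp only [hv, hw, if_true, if_false]
      exact hr2 v hv w hvw
    · simp only [hv, hw, if_true, if_false]
      exact (hr2 w hw v hvw.symm).symm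
    · simp only [hv, hw, if_false]
      refine hg.adj v w ((hadj' _ _).2 ⟨hvw, ?_⟩)
      rintro ⟨p, hp, hh⟩
      rw [Sym2.eq_iff] at hh
      rcases hh with ⟨h1, _⟩ | ⟨_, h2⟩
      · exact hv ⟨p, hp, h1.symm⟩
      · exact hw ⟨p, hp, h2.symm⟩
  · intro v w hvw
    by_cases hv : ∃ p ∈ F, p.1 = v
    · simp only [hv, if_true]
      exact (hr3 v hv w hvw).symm
    · simp only [hv, if_false]
      by_cases hd : ∃ p ∈ F, s(v, w) = s(p.1, p.2)
      · obtain ⟨p, hp, hh⟩ := hd
        rw [hh, hE1 p hp]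
        rw [Sym2.eq_iff] at hh
        rcases hh with ⟨h1, _⟩ | ⟨h1, _⟩
        · exact absurd ⟨p, hp, h1.symm⟩ hv
        · rw [h1]
          exact hfB1 p hp
      · rw [hE2 _ hd]
        exact hg.inc v w ((hadj' _ _).2 ⟨hvw, hd⟩)
  · intro v w w' hvw hvw' hww'
    by_cases hd : ∃ p ∈ F, s(v, w) = s(p.1, p.2) <;> by_cases hd' : ∃ p ∈ F, s(v, w') = s(p.1, p.2)
    · obtain ⟨p, hp, hh⟩ := hd
      obtain ⟨p', hp', hh'⟩ := hd'
      rw [hh, hE1 p hp, hh', hE1 p' hp']
      have hne : p ≠ p' := by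
        rintro rfl
        rw [← hh', Sym2.eq_iff] at hh
        rcases hh with ⟨_, h2⟩ | ⟨h1, h2⟩
        · exact hww' h2
        · exact hww' (h2.trans h1)
      rw [Sym2.eq_iff] at hh hh'
      refine hf2 p hp p' hp' hne ?_
      rcases hh with ⟨h1, _⟩ | ⟨h1, _⟩ <;> rcases hh' with ⟨h2, _⟩ | ⟨h2, _⟩
      · exact Or.inl (h1.symm.trans h2)
      · exact absurd (h1.symm.trans h2) (hcross p hp p' hp')
      · exact absurd (h2.symm.trans h1) (hcross p' hp' p hp)
      · exact Or.inr (h1.symm.trans h2)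
    · obtain ⟨p, hp, hh⟩ := hd
      rw [hh, hE1 p hp, hE2 _ hd']
      rw [Sym2.eq_iff] at hh
      have hG'' := (hadj' _ _).2 ⟨hvw', hd'⟩
      rcases hh with ⟨h1, _⟩ | ⟨h1, _⟩
      · subst h1; exact hfB2 p hp w' hG''
      · subst h1; exact hfB3 p hp w' hG''
    · obtain ⟨p, hp, hh⟩ := hd'
      rw [hh, hE1 p hp, hE2 _ hd]
      rw [Sym2.eq_iff] at hh
      have hG'' := (hadj' _ _).2 ⟨hvw, hd⟩
      rcases hh with ⟨h1, _⟩ | ⟨h1, _⟩
      · subst h1; exact (hfB2 p hp w hG'').symm
      · subst h1; exact (hfB3 p hp w hG'').symm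
    · rw [hE2 _ hd, hE2 _ hd']
      exact hg.prp v w w' ((hadj' _ _).2 ⟨hvw, hd⟩) ((hadj' _ _).2 ⟨hvw', hd'⟩) hww'

end Steps

end Pool.Agent.Work.MP_db9399_co
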