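import Mathlib
import Pool.Agent.Work.MP_db9399_co.Step75
import Pool.Agent.Work.MP_db9399_co.Peel70

/-!
# Total colourings of sparse graphs extending a precoloured part

Main induction: a graph in which every vertex set `S` spans fewer than `m |S| / 2` edges.
-/

set_option autoImplicit false

namespace Pool.Agent.Work.MP_db9399_co

open Finset

section Core

variable {V C : Type*} [Fintype V] [DecidableEq V] [Fintype C] [DecidableEq C]

/-- The hypotheses carried through the induction. -/
structure Hyp (m b : ℕ) (W : Finset V) (c0 : V → C) (e0 : Sym2 V → C) (forb : V → Finset C)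
    (G : SimpleGraph V) : Prop where
  deg : ∀ v, (nb G v).card + b ≤ Fintype.card C
  mad : ∀ S : Finset V, S.Nonempty → ∑ v ∈ S, (nb G v ∩ S).card < m * S.card
  pc : ∀ u ∈ W, ∀ v ∈ W, G.Adj u v → c0 u ≠ c0 v ∧ e0 s(u, v) ≠ c0 u
  w1 : ∀ u ∈ W, (nb G u ∩ W).card ≤ 1
  w2 : ∀ w, w ∉ W → (nb G w ∩ W).card ≤ 2
  w3 : ∀ w, w ∉ W → ∀ z ∈ W, ∀ z' ∈ W, z ≠ z' → G.Adj w z → G.Adj w z' → G.Adj z z'
  fb : ∀ u ∈ W, ∀ w, w ∉ W → G.Adj u w → c0 u ∈ forb w

omit [DecidableEq V] in
lemma nb_mono {G G' : SimpleGraph V} (h : G' ≤ G) (v : V) : nb G' v ⊆ nb G v := by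
  intro w hw
  rw [mem_nb] at hw ⊢
  exact h hw

omit [DecidableEq C] in
lemma Hyp.mono {m b : ℕ} {W : Finset V} {c0 : V → C} {e0 : Sym2 V → C} {forb : V → Finset C}
    {G G' : SimpleGraph V} (h : G' ≤ G) (hW : ∀ z ∈ W, ∀ z' ∈ W, G.Adj z z' → G'.Adj z z')
    (hG : Hyp m b W c0 e0 forb G) :
    Hyp m b W c0 e0 forb G' := by
  constructor
  · intro v
    have := card_le_card (nb_mono h v)
    have := hG.deg v
    omega
  · intro S hS
    refine lt_of_le_of_lt ?_ (hG.mad S hS)
    exact sum_le_sum fun v _ => card_le_card (inter_subset_inter_right (nb_mono h v))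
  · intro u hu v hv huv
    exact hG.pc u hu v hv (h huv)
  · intro u hu
    exact (card_le_card (inter_subset_inter_right (nb_mono h u))).trans (hG.w1 u hu)
  · intro u hu
    exact (card_le_card (inter_subset_inter_right (nb_mono h u))).trans (hG.w2 u hu)
  · intro w hw z hz z' hz' hne h1 h2
    exact hW z hz z' hz' (hG.w3 w hw z hz z' hz' hne (h h1) (h h2))
  · intro u hu w hw huw
    exact hG.fb u hu w hw (h huw)

omit [DecidableEq V] in
lemma sum_nb_lt {G G' : SimpleGraph V} (h : G' ≤ G) {x y : V} (hxy : G.Adj x y)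
    (hxy' : ¬ G'.Adj x y) : ∑ v, (nb G' v).card < ∑ v, (nb G v).card := by
  apply sum_lt_sum
  · intro v _
    exact card_le_card (nb_mono h v)
  · refine ⟨x, mem_univ _, card_lt_card ⟨nb_mono h x, fun hh => hxy' ?_⟩⟩
    have := hh ((mem_nb _ _ _).2 hxy)
    exact (mem_nb _ _ _).1 this

/-- bound for the potential -/
lemma two_mul_sum_range_sub_le (n j : ℕ) : 2 * ∑ i ∈ range j, (n - i) ≤ n * (n + 1) := by
  have key : ∀ j, j ≤ n → 2 * ∑ i ∈ range j, (n - i) + (n - j) * (n - j + 1) = n * (n + 1) := by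
    intro j
    induction j with
    | zero => intro _; simp
    | succ j ih =>
      intro hj
      have := ih (by omega)
      rw [sum_range_succ, mul_add]
      obtain ⟨k, rfl⟩ : ∃ k, n = j + 1 + k := ⟨n - (j + 1), by omega⟩
      have h1 : j + 1 + k - (j + 1) = k := by omega
      have h2 : j + 1 + k - j = k + 1 := by omega
      rw [h1, h2]
      rw [h2] at this
      nlinarith
  rcases le_or_gt j n with h | h
  · have := key j h
    omega
  · have h1 : ∑ i ∈ range j, (n - i) = ∑ i ∈ range n, (n - i) := by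
      symm
      apply sum_subset
      · intro i hi
        rw [mem_range] at hi ⊢
        omega
      · intro i _ hi
        rw [mem_range] at hi
        omega
    rw [h1]
    have := key n le_rfl
    omega

theorem core (m b : ℕ) (hb : 1 ≤ b) (W : Finset V) (c0 : V → C) (e0 : Sym2 V → C)
    (forb : V → Finset C) (hfc : ∀ w, w ∉ W → (forb w).card ≤ 2)
    (hK1 : 2 * m + 1 ≤ Fintype.card C)
    (hK2 : ∀ n, 1 ≤ n → n + 1 + b ≤ m →
      n * (n + 1) + 2 * b * (2 * m + 1) ≤ 2 * b * (Fintype.card C + n))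
    (G : SimpleGraph V) (hG : Hyp m b W c0 e0 forb G) :
    ∃ c e, Good G W c0 e0 forb c e := by
  classical
  induction' hμ : ∑ v, (nb G v).card using Nat.strong_induction_on with N ih generalizing G
  -- trivial case
  by_cases hiso : ∀ w, w ∉ W → nb G w = ∅
  · have hex : ∀ w, w ∉ W → ∃ a, a ∉ forb w := by
      intro w hw
      by_contra hcon
      push Not at hcon
      have : forb w = univ := by ext x; simp [hcon x]
      have h1 := hfc w hw
      have h2 := hG.mad {w} (singleton_nonempty w)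
      have h3 : 0 < m * ({w} : Finset V).card := lt_of_le_of_lt (Nat.zero_le _) h2
      rw [card_singleton, mul_one] at h3
      rw [this, card_univ] at h1
      omega
    have : Nonempty C := Fintype.card_pos_iff.1 (by omega)
    choose! r hr using hex
    have hin : ∀ u v, G.Adj u v → u ∈ W := by
      intro u v huv
      by_contra hu
      have : v ∈ nb G u := (mem_nb _ _ _).2 huv
      rw [hiso u hu] at this
      simp at this
    refine ⟨fun v => if v ∈ W then c0 v else r v, e0, ?_⟩
    constructor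
    · intro v hv; simp [hv]
    · intro u _ v _ _; rfl
    · intro v hv
      simp only [hv, if_false]
      exact hr v hv
    · intro v w hvw
      have h1 := hin v w hvw
      have h2 := hin w v hvw.symm
      simp only [h1, h2, if_true]
      exact (hG.pc v h1 w h2 hvw).1
    · intro v w hvw
      have h1 := hin v w hvw
      have h2 := hin w v hvw.symm
      simp only [h1, if_true]
      exact (hG.pc v h1 w h2 hvw).2
    · intro v w w' hvw hvw' hww'
      exfalso
      have h0 := hin v w hvw
      have h1 := hin w v hvw.symm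
      have h2 := hin w' v hvw'.symm
      have := hG.w1 v h0
      rw [card_le_one] at this
      exact hww' (this w (by simp [hvw, h1]) w' (by simp [hvw', h2]))
  -- case A1
  by_cases hA1 : ∃ u ∈ W, ∃ w, w ∉ W ∧ G.Adj u w ∧
      (nb G u).card + (nb G w).card + 1 ≤ Fintype.card C
  · obtain ⟨u, hu, w, hw, huw, hdeg⟩ := hA1
    refine step_single G W c0 e0 forb u w hu hw huw (hG.fb u hu w hw huw) hdeg ?_
    have hle : G.deleteEdges {s(u, w)} ≤ G := SimpleGraph.deleteEdges_le _
    refine ih _ ?_ _ (hG.mono hle ?_) rfl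
    · rw [← hμ]
      refine sum_nb_lt hle huw ?_
      rw [SimpleGraph.deleteEdges_adj]
      simp
    · intro z hz z' hz' hzz'
      rw [SimpleGraph.deleteEdges_adj]
      refine ⟨hzz', fun hh => ?_⟩
      rw [Set.mem_singleton_iff, Sym2.eq_iff] at hh
      rcases hh with ⟨_, h2⟩ | ⟨h1, _⟩
      · exact hw (h2 ▸ hz')
      · exact hw (h1 ▸ hz)
  push Not at hA1
  -- the general reduction
  have hred : ∀ F : Finset (V × V), F.Nonempty → (∀ p ∈ F, G.Adj p.1 p.2) →
      (∀ p ∈ F, p.1 ∉ W) → (∀ p ∈ F, ∀ p' ∈ F, ¬ G.Adj p.1 p'.1) →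
      (∀ p ∈ F, (nb G p.1).card + 1 ≤ m) →
      (∀ p ∈ F, (nb G p.1).card + (nb G p.2).card + 1 +
      max (F.filter (fun e' => e'.1 = p.1)).card (F.filter (fun e' => e'.2 = p.2)).card ≤
      Fintype.card C + (F.filter (fun e' => e'.1 = p.1)).card +
        (F.filter (fun e' => e'.2 = p.2)).card) → ∃ c e, Good G W c0 e0 forb c e := by
    intro F hFne hF hFW hind hm hlist
    refine step_F G W c0 e0 forb F hF hFW hind (fun p hp => hfc _ (hFW p hp))
      (fun p hp => by have := hm p hp; omega) hlist ?_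
    have hle : G.deleteEdges {s | ∃ p ∈ F, s = s(p.1, p.2)} ≤ G := SimpleGraph.deleteEdges_le _
    refine ih _ ?_ _ (hG.mono hle ?_) rfl
    · rw [← hμ]
      obtain ⟨p, hp⟩ := hFne
      refine sum_nb_lt hle (hF p hp) ?_
      rw [SimpleGraph.deleteEdges_adj]
      intro hh
      exact hh.2 ⟨p, hp, rfl⟩
    · intro z hz z' hz' hzz'
      rw [SimpleGraph.deleteEdges_adj]
      refine ⟨hzz', ?_⟩
      rintro ⟨p, hp, hh⟩
      rw [Sym2.eq_iff] at hh
      rcases hh with ⟨h1, _⟩ | ⟨_, h2⟩
      · exact hFW p hp (h1 ▸ hz)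
      · exact hFW p hp (h2 ▸ hz')
  -- small vertices
  set X : Finset V := univ.filter (fun x => x ∉ W ∧ 1 ≤ (nb G x).card ∧ (nb G x).card + 1 ≤ m)
    with hX
  have hXmem : ∀ x, x ∈ X ↔ x ∉ W ∧ 1 ≤ (nb G x).card ∧ (nb G x).card + 1 ≤ m := by
    intro x; rw [hX, mem_filter]; simp
  by_cases hA2 : ∃ x ∈ X, ∃ x' ∈ X, G.Adj x x'
  · obtain ⟨x, hx, x', hx', hxx'⟩ := hA2
    rw [hXmem] at hx hx'
    refine hred {(x, x')} (by simp) (by simpa using hxx') (by simpa using hx.1) (by simp)
      (by simpa using hx.2.2) ?_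
    intro p hp
    rw [mem_singleton] at hp
    subst hp
    have h1 : ({(x, x')} : Finset (V × V)).filter (fun e' => e'.1 = x) = {(x, x')} := by
      ext p; simp only [mem_filter, mem_singleton]
      constructor
      · exact fun h => h.1
      · rintro rfl; exact ⟨rfl, rfl⟩
    have h2 : ({(x, x')} : Finset (V × V)).filter (fun e' => e'.2 = x') = {(x, x')} := by
      ext p; simp only [mem_filter, mem_singleton]
      constructor
      · exact fun h => h.1
      · rintro rfl; exact ⟨rfl, rfl⟩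
    simp only [h1, h2, card_singleton, max_self]
    have := hx.2.2
    have := hx'.2.2
    omega
  push Not at hA2
  by_contra hnogood
  -- the bipartite set of edges at small vertices
  set E0 : Finset (V × V) := univ.filter (fun p => p.1 ∈ X ∧ G.Adj p.1 p.2) with hE0
  have hE0mem : ∀ p, p ∈ E0 ↔ p.1 ∈ X ∧ G.Adj p.1 p.2 := by
    intro p; rw [hE0, mem_filter]; simp
  have hdL : ∀ x ∈ X, (E0.filter (fun e => e.1 = x)).card = (nb G x).card := by
    intro x hx
    have : E0.filter (fun e => e.1 = x) = (nb G x).image (fun y => (x, y)) := by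
      ext ⟨a, c⟩
      simp only [mem_filter, hE0mem, mem_image, mem_nb, Prod.mk.injEq]
      constructor
      · rintro ⟨⟨h1, h2⟩, rfl⟩
        exact ⟨c, h2, rfl, rfl⟩
      · rintro ⟨y, hy, rfl, rfl⟩
        exact ⟨⟨hx, hy⟩, rfl⟩
    rw [this, card_image_of_injective]
    intro y y' h
    exact (Prod.mk.inj h).2
  have himg : E0.image Prod.fst = X := by
    ext x
    rw [mem_image]
    constructor
    · rintro ⟨p, hp, rfl⟩
      exact ((hE0mem p).1 hp).1
    · intro hx
      have h1 := ((hXmem x).1 hx).2.1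
      obtain ⟨y, hy⟩ := card_pos.1 h1
      exact ⟨(x, y), (hE0mem _).2 ⟨hx, (mem_nb _ _ _).1 hy⟩, rfl⟩
  have hpeel := peel m b hb (fun v => (nb G v).card)
    (fun v => Fintype.card C - 1 - (nb G v).card) E0
    (by
      intro p hp
      exact ((hXmem _).1 ((hE0mem p).1 hp).1).2.2)
    (by
      intro y
      have := hG.deg y
      show b ≤ Fintype.card C - 1 - (nb G y).card + 1
      omega)
    (by
      intro p hp
      exact hdL _ ((hE0mem p).1 hp).1)
    (by
      intro F hFE hFne hF1
      by_contra hcon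
      push Not at hcon
      apply hnogood
      refine hred F hFne (fun p hp => ((hE0mem p).1 (hFE hp)).2)
        (fun p hp => ((hXmem _).1 ((hE0mem p).1 (hFE hp)).1).1)
        (fun p hp p' hp' => hA2 _ ((hE0mem p).1 (hFE hp)).1 _ ((hE0mem p').1 (hFE hp')).1)
        (fun p hp => ((hXmem _).1 ((hE0mem p).1 (hFE hp)).1).2.2) ?_
      intro p hp
      have h1 := hF1 p hp
      have h2 := hcon p hp
      have h3 := hG.deg p.2
      have h4 : (nb G p.1).card + (nb G p.2).card + 1 ≤
          Fintype.card C + (F.filter (fun e => e.2 = p.2)).card := by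
        omega
      have h5 : (nb G p.1).card + (nb G p.2).card + 1 ≤
          Fintype.card C + (F.filter (fun e => e.1 = p.1)).card := by
        omega
      rcases max_cases (F.filter (fun e' => e'.1 = p.1)).card
        (F.filter (fun e' => e'.2 = p.2)).card with h | h <;> omega)
  rw [himg] at hpeel
  -- the dense set
  set T : Finset V := univ.filter (fun v => (v ∉ W ∧ 1 ≤ (nb G v).card) ∨
    (v ∈ W ∧ (m + 1 ≤ (nb G v).card ∨
      (m ≤ (nb G v).card ∧ ∃ v' ∈ W, G.Adj v v' ∧ m ≤ (nb G v').card)))) with hT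
  have hTmem : ∀ v, v ∈ T ↔ (v ∉ W ∧ 1 ≤ (nb G v).card) ∨ (v ∈ W ∧ (m + 1 ≤ (nb G v).card ∨
      (m ≤ (nb G v).card ∧ ∃ v' ∈ W, G.Adj v v' ∧ m ≤ (nb G v').card))) := by
    intro x; rw [hT, mem_filter]; simp
  have hpos : ∀ v w, G.Adj v w → 1 ≤ (nb G v).card := fun v w hvw =>
    card_pos.2 ⟨w, (mem_nb _ _ _).2 hvw⟩
  have hout : ∀ v w, G.Adj v w → w ∉ T → w ∈ W ∧ (nb G w).card ≤ m ∧
      ∀ w' ∈ W, G.Adj w w' → m ≤ (nb G w).card → m ≤ (nb G w').card → False := by
    intro v w hvw hw
    rw [hTmem] at hw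
    push Not at hw
    have h1 := hpos w v hvw.symm
    by_cases hwW : w ∈ W
    · have h2 := hw.2 hwW
      refine ⟨hwW, by omega, fun w' hw' hww' h3 h4 => ?_⟩
      have := h2.2 h3 w' hw' hww'
      omega
    · exact absurd (hw.1 hwW) (by omega)
  have hXT : X ⊆ T := by
    intro x hx
    rw [hXmem] at hx
    rw [hTmem]
    exact Or.inl ⟨hx.1, hx.2.1⟩
  have hXnb : ∀ x ∈ X, nb G x ∩ T = nb G x := by
    intro x hx
    rw [inter_eq_left]
    intro y hy
    rw [mem_nb] at hy
    by_contra hyT
    obtain ⟨h1, h2, _⟩ := hout x y hy hyT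
    rw [hXmem] at hx
    have := hA1 y h1 x hx.1 hy.symm
    omega
  have hTX : ∀ y ∈ T \ X, b * m + ∑ i ∈ range (E0.filter (fun e => e.2 = y)).card,
      ((m - 2 - (Fintype.card C - 1 - (nb G y).card)) - i) ≤ b * (nb G y ∩ T).card := by
    intro y hy
    rw [mem_sdiff] at hy
    obtain ⟨hyT, hyX⟩ := hy
    have hsplit : (nb G y ∩ T).card + (nb G y \ T).card = (nb G y).card := by
      rw [add_comm, card_sdiff_add_card_inter]
    have hsub : nb G y \ T ⊆ nb G y ∩ W := by
      intro z hz
      rw [mem_sdiff, mem_nb] at hz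
      rw [mem_inter, mem_nb]
      exact ⟨hz.1, (hout y z hz.1 hz.2).1⟩
    have hcs := card_le_card hsub
    have hmain : m ≤ (nb G y ∩ T).card ∧ (nb G y).card ≤ (nb G y ∩ T).card + 2 := by
      rw [hTmem] at hyT
      rcases hyT with ⟨h1, h2⟩ | ⟨h1, h2⟩
      · have hw2 := hG.w2 y h1
        have hm : m ≤ (nb G y).card := by
          by_contra hcon
          exact hyX ((hXmem y).2 ⟨h1, h2, by omega⟩)
        rcases Nat.lt_trichotomy (nb G y \ T).card 1 with hc | hc | hc
        · omega
        · obtain ⟨z, hz⟩ := card_pos.1 (by omega : 0 < (nb G y \ T).card)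
          rw [mem_sdiff, mem_nb] at hz
          obtain ⟨h3, h4, _⟩ := hout y z hz.1 hz.2
          have := hA1 z h3 y h1 hz.1.symm
          omega
        · obtain ⟨z, hz, z', hz', hne⟩ := one_lt_card.1 hc
          rw [mem_sdiff, mem_nb] at hz hz'
          obtain ⟨h3, h4, h5⟩ := hout y z hz.1 hz.2
          obtain ⟨h3', h4', h5'⟩ := hout y z' hz'.1 hz'.2
          have hadj := hG.w3 y h1 z h3 z' h3' hne hz.1 hz'.1
          have h6 := hA1 z h3 y h1 hz.1.symm
          have h7 := hA1 z' h3' y h1 hz'.1.symm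
          by_cases h8 : m ≤ (nb G z).card
          · have h9 := h5 z' h3' hadj h8
            by_cases h10 : m ≤ (nb G z').card
            · exact absurd (h9 h10) id
            · omega
          · omega
      · have hw1 := hG.w1 y h1
        rcases h2 with h2 | ⟨h2, y', hy', hyy', h3⟩
        · omega
        · have hemp : nb G y \ T = ∅ := by
            rw [eq_empty_iff_forall_notMem]
            intro z hz
            have hzW := hsub hz
            rw [card_le_one] at hw1
            have : z = y' := hw1 z hzW y' (by rw [mem_inter, mem_nb]; exact ⟨hyy', hy'⟩)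
            subst this
            rw [mem_sdiff] at hz
            exact hz.2 ((hTmem z).2 (Or.inr ⟨hy', Or.inr ⟨h3, y, h1, hyy'.symm, h2⟩⟩))
          rw [hemp, card_empty] at hsplit
          omega
    set n := m - 2 - (Fintype.card C - 1 - (nb G y).card) with hn
    have h2s := two_mul_sum_range_sub_le n (E0.filter (fun e => e.2 = y)).card
    rcases Nat.eq_zero_or_pos n with h0 | h0
    · rw [h0] at h2s ⊢
      have : ∑ i ∈ range (E0.filter (fun e => e.2 = y)).card, (0 - i) = 0 := by omega
      rw [this]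
      exact Nat.mul_le_mul_left b hmain.1
    · have hdy := hG.deg y
      have h5 := hK2 n h0 (by omega)
      have h6 : Fintype.card C + n ≤ (nb G y ∩ T).card + 1 + m := by omega
      have h7 : 2 * b * (Fintype.card C + n) ≤ 2 * b * ((nb G y ∩ T).card + 1 + m) :=
        Nat.mul_le_mul_left _ h6
      nlinarith
  have hzero : ∀ y, y ∉ T \ X → (E0.filter (fun e => e.2 = y)).card = 0 := by
    intro y hy
    rw [card_eq_zero, filter_eq_empty_iff]
    rintro p hp rfl
    rw [hE0mem] at hp
    apply hy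
    rw [mem_sdiff]
    refine ⟨?_, fun hX' => hA2 _ hp.1 _ hX' hp.2⟩
    have : p.2 ∈ nb G p.1 ∩ T := by
      rw [hXnb _ hp.1, mem_nb]
      exact hp.2
    exact (mem_inter.1 this).2
  have hsum : ∑ y : V, ∑ i ∈ range (E0.filter (fun e => e.2 = y)).card,
      ((m - 2 - (Fintype.card C - 1 - (nb G y).card)) - i) =
      ∑ y ∈ T \ X, ∑ i ∈ range (E0.filter (fun e => e.2 = y)).card,
      ((m - 2 - (Fintype.card C - 1 - (nb G y).card)) - i) := by
    symm
    apply sum_subset (subset_univ _)
    intro y _ hy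
    rw [hzero y hy]
    simp
  -- final count
  have hTne : T.Nonempty := by
    push Not at hiso
    obtain ⟨w, hw, hw'⟩ := hiso
    refine ⟨w, (hTmem w).2 (Or.inl ⟨hw, ?_⟩)⟩
    exact card_pos.2 hw'
  have hfinal := hG.mad T hTne
  have e1 : ∑ v ∈ T, (nb G v ∩ T).card =
      ∑ v ∈ T \ X, (nb G v ∩ T).card + ∑ v ∈ X, (nb G v ∩ T).card :=
    (sum_sdiff hXT).symm
  have e2 : ∑ v ∈ X, (nb G v ∩ T).card = ∑ v ∈ X, (nb G v).card :=
    sum_congr rfl fun v hv => by rw [hXnb v hv]
  have e3 : b * m * (T \ X).card + ∑ y ∈ T \ X, ∑ i ∈ range (E0.filter (fun e => e.2 = y)).card,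
      ((m - 2 - (Fintype.card C - 1 - (nb G y).card)) - i) ≤ b * ∑ v ∈ T \ X, (nb G v ∩ T).card := by
    rw [mul_sum]
    calc _ = ∑ y ∈ T \ X, (b * m + ∑ i ∈ range (E0.filter (fun e => e.2 = y)).card,
      ((m - 2 - (Fintype.card C - 1 - (nb G y).card)) - i)) := by
          rw [sum_add_distrib, sum_const, smul_eq_mul, mul_comm]
      _ ≤ _ := sum_le_sum hTX
  have e4 : b * m * X.card = b * ∑ v ∈ X, (nb G v).card + b * ∑ v ∈ X, (m - (nb G v).card) := by
    rw [← mul_add, ← sum_add_distrib]
    have : ∑ v ∈ X, ((nb G v).card + (m - (nb G v).card)) = ∑ v ∈ X, m := by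
      apply sum_congr rfl
      intro v hv
      have := ((hXmem v).1 hv).2.2
      omega
    rw [this, sum_const, smul_eq_mul]
    ring
  have e5 : (T \ X).card + X.card = T.card := card_sdiff_add_card_eq_card hXT
  have e6 : b * (m * T.card) ≤ b * ∑ v ∈ T, (nb G v ∩ T).card := by
    rw [e1, e2, mul_add, ← e5]
    have : b * (m * ((T \ X).card + X.card)) = b * m * (T \ X).card + b * m * X.card := by ring
    rw [this, e4]
    rw [hsum] at hpeel
    have hpeel' : b * ∑ v ∈ X, (m - (nb G v).card) ≤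
      ∑ y ∈ T \ X, ∑ i ∈ range (E0.filter (fun e => e.2 = y)).card,
      ((m - 2 - (Fintype.card C - 1 - (nb G y).card)) - i) := hpeel
    omega
  have e7 : b * ∑ v ∈ T, (nb G v ∩ T).card < b * (m * T.card) :=
    Nat.mul_lt_mul_of_pos_left hfinal (by omega)
  omega

end Core

end Pool.Agent.Work.MP_db9399_co
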