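import Mathlib
import Pool.Agent.Work.MP_db9399_co.Defs
import Pool.Agent.Work.MP_db9399_co.Core75

/-!
# Total colourings of distance-3 matchings extend in sparse graphs
-/

set_option autoImplicit false

namespace Pool.Agent.Work.MP_db9399_co

open Finset _root_.MP_db9399_co

section Sparse

variable {V : Type*} [Fintype V]

/-- the induced subgraph has half as many edges as the sum of its inner degrees -/
lemma sum_nb_inter [DecidableEq V] (G : SimpleGraph V) (S : Finset V) :
    ∑ v ∈ S, (nb G v ∩ S).card = 2 * (G.induce (S : Set V)).edgeSet.ncard := by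
  classical
  have h1 := (G.induce (S : Set V)).sum_degrees_eq_twice_card_edges
  have h2 : (G.induce (S : Set V)).edgeSet.ncard = (G.induce (S : Set V)).edgeFinset.card := by
    rw [Set.ncard_eq_toFinset_card']
    rfl
  rw [h2, ← h1, ← Finset.sum_coe_sort S (fun v => (nb G v ∩ S).card)]
  refine Finset.sum_congr rfl fun v _ => ?_
  rw [← SimpleGraph.card_neighborFinset_eq_degree]
  symm
  refine Finset.card_bij (fun (w : ↥(S : Set V)) _ => (w : V)) ?_ ?_ ?_
  · intro w hw
    rw [SimpleGraph.mem_neighborFinset, SimpleGraph.comap_adj] at hw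
    rw [mem_inter, mem_nb]
    exact ⟨hw, w.2⟩
  · intro a _ b _ h
    exact Subtype.ext h
  · intro w hw
    rw [mem_inter, mem_nb] at hw
    refine ⟨⟨w, hw.2⟩, ?_, rfl⟩
    rw [SimpleGraph.mem_neighborFinset, SimpleGraph.comap_adj]
    exact hw.1

theorem sparse_extends (G : SimpleGraph V) [DecidableRel G.Adj] (m b k : ℕ) (hb : 1 ≤ b)
    (hmad : ∀ S : Finset V, S.Nonempty → 2 * (G.induce (S : Set V)).edgeSet.ncard < m * S.card)
    (hk : G.maxDegree + b ≤ k) (hK1 : 2 * m + 1 ≤ k)
    (hK2 : ∀ n, 1 ≤ n → n + 1 + b ≤ m → n * (n + 1) + 2 * b * (2 * m + 1) ≤ 2 * b * (k + n))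
    (H : G.Subgraph) (hH : IsDistThreeMatching H) : EveryTotalColoringExtends H (Fin k) := by
  classical
  intro c0 t0 h0
  obtain ⟨hM, hdist⟩ := hH
  set W : Finset V := H.verts.toFinset with hW
  have hWmem : ∀ v, v ∈ W ↔ v ∈ H.verts := by intro v; rw [hW, Set.mem_toFinset]
  -- adjacency facts
  have hF2 : ∀ u ∈ W, ∀ v ∈ W, G.Adj u v → H.Adj u v := by
    intro u hu v hv huv
    by_contra hn
    have h1 := hdist u ((hWmem u).1 hu) v ((hWmem v).1 hv) huv.ne hn
    have h3 : G.edist u v ≤ ((SimpleGraph.Walk.cons huv SimpleGraph.Walk.nil).length : ℕ∞) :=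
      SimpleGraph.edist_le _
    simp only [SimpleGraph.Walk.length_cons, SimpleGraph.Walk.length_nil] at h3
    have h4 := h1.trans h3
    norm_num at h4
  have hF3 : ∀ w, ∀ u ∈ W, ∀ v ∈ W, u ≠ v → G.Adj w u → G.Adj w v → H.Adj u v := by
    intro w u hu v hv huv h1 h2
    by_contra hn
    have h5 := hdist u ((hWmem u).1 hu) v ((hWmem v).1 hv) huv hn
    have h3 : G.edist u v ≤ ((SimpleGraph.Walk.cons h1.symm (SimpleGraph.Walk.cons h2
      SimpleGraph.Walk.nil)).length : ℕ∞) := SimpleGraph.edist_le _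
    simp only [SimpleGraph.Walk.length_cons, SimpleGraph.Walk.length_nil] at h3
    have h4 := h5.trans h3
    norm_num at h4
  have hF4 : ∀ u v v', H.Adj u v → H.Adj u v' → v = v' := by
    intro u v v' h1 h2
    exact (hM h1.fst_mem).unique h1 h2
  have hcard3 : ∀ w, (nb G w ∩ W).card ≤ 2 := by
    intro w
    by_contra hcon
    push Not at hcon
    obtain ⟨x, hx, y, hy, z, hz, hxy, hxz, hyz⟩ := two_lt_card.1 hcon
    rw [mem_inter, mem_nb] at hx hy hz
    have h1 := hF3 w x hx.2 y hy.2 hxy hx.1 hy.1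
    have h2 := hF3 w x hx.2 z hz.2 hxz hx.1 hz.1
    exact hyz (hF4 x y z h1 h2)
  have hdeg : ∀ v, (nb G v).card + b ≤ k := by
    intro v
    have h1 : (nb G v).card = G.degree v := by
      rw [← SimpleGraph.card_neighborFinset_eq_degree]
      congr 1
      ext w
      simp
    have h2 := G.degree_le_maxDegree v
    omega
  obtain ⟨c, t, hg⟩ := core m b hb W c0 t0 (fun w => (nb G w ∩ W).image c0)
    (fun w _ => card_image_le.trans (hcard3 w))
    (by rw [Fintype.card_fin]; exact hK1)
    (by rw [Fintype.card_fin]; exact hK2) G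
    { deg := by rw [Fintype.card_fin]; exact hdeg
      mad := by
        intro S hS
        rw [sum_nb_inter]
        exact hmad S hS
      pc := by
        intro u hu v hv huv
        have := hF2 u hu v hv huv
        exact ⟨h0.vertex u v (by simpa using this), h0.incidence u v (by simpa using this)⟩
      w1 := by
        intro u hu
        rw [card_le_one]
        intro x hx y hy
        rw [mem_inter, mem_nb] at hx hy
        exact hF4 u x y (hF2 u hu x hx.2 hx.1) (hF2 u hu y hy.2 hy.1)
      w2 := fun w _ => hcard3 w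
      w3 := by
        intro w _ z hz z' hz' hne h1 h2
        exact (hF3 w z hz z' hz' hne h1 h2).adj_sub
      fb := by
        intro u hu w _ huw
        exact mem_image_of_mem c0 (by rw [mem_inter, mem_nb]; exact ⟨huw.symm, hu⟩) }
  refine ⟨c, t, ⟨hg.adj, hg.prp, hg.inc⟩, fun v hv => hg.vtx v ((hWmem v).2 hv), ?_⟩
  intro e he
  induction e with
  | _ u v =>
    rw [SimpleGraph.Subgraph.mem_edgeSet] at he
    exact hg.edg u ((hWmem u).2 he.fst_mem) v ((hWmem v).2 he.snd_mem) he.adj_sub

/-- version with slack 2 and a single numerical hypothesis -/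
theorem sparse_extends_two (G : SimpleGraph V) [DecidableRel G.Adj] (m k : ℕ)
    (hmad : ∀ S : Finset V, S.Nonempty → 2 * (G.induce (S : Set V)).edgeSet.ncard < m * S.card)
    (hk : G.maxDegree + 2 ≤ k) (hkm : m ^ 2 + 22 ≤ 4 * k + m)
    (H : G.Subgraph) (hH : IsDistThreeMatching H) : EveryTotalColoringExtends H (Fin k) := by
  refine sparse_extends G m 2 k (by norm_num) hmad hk ?_ ?_ H hH
  · by_contra hcon
    push Not at hcon
    have h1 : m ^ 2 + 22 ≤ 4 * (2 * m) + m := by omega
    have h2 : m ≤ 9 := by nlinarith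
    interval_cases m <;> omega
  · intro n hn1 hn2
    obtain ⟨j, rfl⟩ : ∃ j, m = n + 3 + j := ⟨m - (n + 3), by omega⟩
    rcases Nat.lt_or_ge 1 n with h | h
    · nlinarith
    · have : n = 1 := by omega
      subst this
      have := Nat.le_mul_self j
      nlinarith

/-- version with slack 1 and a single numerical hypothesis -/
theorem sparse_extends_one (G : SimpleGraph V) [DecidableRel G.Adj] (m k : ℕ)
    (hmad : ∀ S : Finset V, S.Nonempty → 2 * (G.induce (S : Set V)).edgeSet.ncard < m * S.card)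
    (hk : G.maxDegree + 1 ≤ k) (hkm : m ^ 2 + 8 ≤ 2 * k + m)
    (H : G.Subgraph) (hH : IsDistThreeMatching H) : EveryTotalColoringExtends H (Fin k) := by
  refine sparse_extends G m 1 k le_rfl hmad hk ?_ ?_ H hH
  · by_contra hcon
    push Not at hcon
    have h1 : m ^ 2 + 8 ≤ 2 * (2 * m) + m := by omega
    have h2 : m ≤ 5 := by nlinarith
    interval_cases m <;> omega
  · intro n hn1 hn2
    obtain ⟨j, rfl⟩ : ∃ j, m = n + 2 + j := ⟨m - (n + 2), by omega⟩
    nlinarith

end Sparse

end Pool.Agent.Work.MP_db9399_co
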