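import Pool.Agent.Work.MP_db9399_co.Defs
import Pool.Agent.Work.MP_db9399_co_helper38.Final

/-!
Q1 holds for every graph with maximum degree at most three: if `G` is a finite graph with
`Δ(G) ≤ 3` and `H` is a distance-3 matching in `G`, then every total colouring of `H` with
`k ≥ Δ(G) + 2` colours is the restriction of a total colouring of `G` with the same `k` colours.
-/

namespace Pool.Agent.Work.MP_db9399_co.SubcubicGraphsOld

open _root_.MP_db9399_co

universe u

/-- For every finite graph `G` with `Δ(G) ≤ 3`, every distance-3 matching `H` in `G` and every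
`k ≥ Δ(G) + 2`, every total-`k`-colouring of `H` extends to a total-`k`-colouring of `G`. -/
theorem result (V : Type u) [Fintype V] (G : SimpleGraph V) [DecidableRel G.Adj]
    (hG : G.maxDegree ≤ 3) (H : G.Subgraph) (hH : IsDistThreeMatching H) (k : ℕ)
    (hk : G.maxDegree + 2 ≤ k) : EveryTotalColoringExtends H (Fin k) :=
  Sub3.extends_le_three G hG H hH k hk

end Pool.Agent.Work.MP_db9399_co.SubcubicGraphsOld
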